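import Pool.Agent.StarkD.Stmts
import Pool.Agent.StarkT.BASEQ
import Pool.Agent.StarkT.TMAIN
import Pool.Agent.StarkT.TRIVX

/-!
# Stark's conjecture up to sign: from `ℚ` to all number fields
-/

open NumberField IsDedekindDomain
open scoped TensorProduct Classical

namespace StarkC

theorem DALL_thm (hB : Stmt_BRA) (hD : Stmt_INDX) (hG : Stmt_GALQ) (hI : Stmt_INFL)
    (hE : Stmt_EXPH) (hR : Stmt_INDREP) (hDL : Stmt_DOWNL) (hS : Stmt_SINDP) (hL : Stmt_LINF) :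
    Stmt_DALL := by
  intro P hP1 hPm hPQ K L _ _ _ _ _ _ S φ Θ V V' _ _ _ _ _ _ ρ ρ' σ hφ hσ
  obtain ⟨m, H, ψ, n, hχ⟩ := hB (L ≃ₐ[K] L) V ρ
  have hinst : ∀ i, ∃ (Mi : ℕ)
      (S' : Finset (HeightOneSpectrum (𝓞 (IntermediateField.fixedField (H i))))),
      P Mi ∧ aboveSet (IntermediateField.fixedField (H i)) L S' = aboveSet K L S ∧
      RelAt (TMAIN.relS σ) (2 * Mi)
        (S' : Set (HeightOneSpectrum (𝓞 (IntermediateField.fixedField (H i)))))
        (aboveSet K L S) Θ (linRep (liftChar (H i) (ψ i)))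
        (linRep (twist σ (liftChar (H i) (ψ i)))) := by
    intro i
    obtain ⟨S', hS'⟩ := IND.exists_S' (IntermediateField.fixedField (H i))
      (S : Set (HeightOneSpectrum (𝓞 K))) S.finite_toSet
    obtain ⟨M', ⟨Mi, hMi, rfl⟩, hst⟩ := BASEQ.linear_cast hPQ hG hI hE hR hDL hS hL
      (IntermediateField.fixedField (H i)) L (liftChar (H i) (ψ i)) σ S' _ hS' φ Θ
      (IND.isPhiTheta_sub _ hφ)
    exact ⟨Mi, S', hMi, hS', (TMAIN.relAt_relS σ _ _ _ _ _ _).2 hst⟩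
  choose Mi Si hMi hSi hrel using hinst
  set Q : ℕ := ∏ i, Mi i with hQ
  set q : Fin m → ℕ := fun i => ∏ j ∈ Finset.univ.erase i, Mi j with hq
  have hk : ∀ i, Q = q i * Mi i := fun i => by
    rw [hQ, hq, mul_comm]
    exact (Finset.mul_prod_erase _ _ (Finset.mem_univ i)).symm
  have hPQ' : P Q := TRIVX.prod_mem P hP1 hPm Mi hMi _
  have hfin := hD (TMAIN.relS σ) (TMAIN.isRel_relS σ) σ K L S φ Θ V V' ρ ρ' (2 * Q) m H ψ
    (fun i => n i * (q i : ℤ)) (fun i => 2 * Mi i) hφ hσ (fun g => by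
      rw [hχ g, Finset.mul_sum]
      refine Finset.sum_congr rfl fun i _ => ?_
      rw [hk i]
      push_cast
      ring) (fun i => ⟨Si i, hSi i, hrel i⟩)
  exact ⟨2 * Q, ⟨Q, hPQ', rfl⟩, (TMAIN.relAt_relS σ _ _ _ _ _ _).1 hfin⟩

end StarkC
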