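import Pool.Agent.StarkD.Stmts

/-!
# Module DFD: the field `N'`
-/

set_option linter.unusedSectionVars false

open NumberField
open scoped Classical

namespace StarkC

namespace DFD

section

variable (K N N₂ : Type) [Field K] [NumberField K] [Field N] [NumberField N] [Field N₂]
  [NumberField N₂] [Algebra K N] [Algebra K N₂] [Algebra N N₂] [IsScalarTower K N N₂]
  [IsGalois K N] [IsGalois K N₂]

/-- The elements which fix all square roots of elements of `N`. -/
def F : Subgroup (N₂ ≃ₐ[K] N₂) where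
  carrier := {g | ∀ y : N₂, (∃ b : N, y ^ 2 = algebraMap N N₂ b) → g y = y}
  one_mem' := fun y _ => rfl
  mul_mem' := fun {a b} ha hb y hy => by
    show a (b y) = y
    rw [hb y hy, ha y hy]
  inv_mem' := fun {a} ha y hy => by
    show a⁻¹ y = y
    have h1 := ha y hy
    conv_lhs => rw [← h1]
    exact AlgEquiv.symm_apply_apply a y

theorem res_comm (g : N₂ ≃ₐ[K] N₂) (b : N) :
    algebraMap N N₂ ((AlgEquiv.restrictNormalHom N g : N ≃ₐ[K] N) b) = g (algebraMap N N₂ b) :=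
  AlgEquiv.restrictNormal_commutes g N b

instance F_normal : (F K N N₂).Normal := by
  constructor
  intro g hg x y hy
  obtain ⟨b, hb⟩ := hy
  show x (g (x⁻¹ y)) = y
  rw [hg (x⁻¹ y) ⟨AlgEquiv.restrictNormalHom N x⁻¹ b, ?_⟩]
  · exact AlgEquiv.apply_symm_apply x y
  · rw [res_comm, ← hb, map_pow]

/-- The normal subgroup generated by the squares of the elements of `Gal(N₂/N)`. -/
def U2 : Subgroup (N₂ ≃ₐ[K] N₂) :=
  Subgroup.normalClosure {g | ∃ u : N₂ ≃ₐ[K] N₂,
    AlgEquiv.restrictNormalHom N u = (1 : N ≃ₐ[K] N) ∧ g = u * u}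

instance U2_normal : (U2 K N N₂).Normal := Subgroup.normalClosure_normal

theorem U2_le_ker : U2 K N N₂ ≤
    (AlgEquiv.restrictNormalHom N : (N₂ ≃ₐ[K] N₂) →* (N ≃ₐ[K] N)).ker := by
  refine Subgroup.normalClosure_le_normal ?_
  rintro _ ⟨u, hu, rfl⟩
  show _ ∈ (AlgEquiv.restrictNormalHom N : (N₂ ≃ₐ[K] N₂) →* (N ≃ₐ[K] N)).ker
  rw [MonoidHom.mem_ker, map_mul, hu, mul_one]

theorem U2_le_F : U2 K N N₂ ≤ F K N N₂ := by
  refine Subgroup.normalClosure_le_normal ?_
  rintro _ ⟨u, hu, rfl⟩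
  intro y hy
  obtain ⟨b, hb⟩ := hy
  show u (u y) = y
  have h1 : (u y) ^ 2 = y ^ 2 := by
    rw [← map_pow, hb, ← res_comm, hu]
    rfl
  rcases sq_eq_sq_iff_eq_or_eq_neg.1 h1 with h | h
  · rw [h, h]
  · rw [h, map_neg, h, neg_neg]

end

section

variable {K N N₂ : Type} [Field K] [NumberField K] [Field N] [NumberField N] [Field N₂]
  [NumberField N₂] [Algebra K N] [Algebra K N₂] [Algebra N N₂] [IsScalarTower K N N₂]
  [IsGalois K N] [IsGalois K N₂]

theorem exists_field : ∃ (N' : Type) (_ : Field N') (_ : NumberField N') (_ : Algebra K N')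
      (_ : Algebra N N') (_ : IsScalarTower K N N') (_ : IsGalois K N'),
      (∀ g : N' ≃ₐ[K] N', AlgEquiv.restrictNormalHom N g = (1 : N ≃ₐ[K] N) → g * g = 1) ∧
      ∀ b : N, (∃ y : N₂, y ^ 2 = algebraMap N N₂ b) → ∃ y : N', y ^ 2 = algebraMap N N' b := by
  let N' : IntermediateField K N₂ := IntermediateField.fixedField (U2 K N N₂)
  have hmem : ∀ y : N₂, y ∈ N' ↔ ∀ g ∈ U2 K N N₂, g y = y := fun y =>
    IntermediateField.mem_fixedField_iff (U2 K N N₂) y
  have hN : ∀ b : N, algebraMap N N₂ b ∈ N' := by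
    intro b
    rw [hmem]
    intro g hg
    have h1 := U2_le_ker K N N₂ hg
    rw [MonoidHom.mem_ker] at h1
    rw [← res_comm, h1]
    rfl
  let alg : Algebra N N' := (RingHom.codRestrict (algebraMap N N₂) N' hN).toAlgebra
  have hval : ∀ b : N, ((algebraMap N N' b : N') : N₂) = algebraMap N N₂ b := fun b => rfl
  have tow : IsScalarTower K N N' := by
    refine IsScalarTower.of_algebraMap_eq fun x => Subtype.ext ?_
    rw [hval, ← IsScalarTower.algebraMap_apply K N N₂]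
    rfl
  have gal : IsGalois K N' := IsGalois.of_fixedField_normal_subgroup (U2 K N N₂)
  refine ⟨N', inferInstance, inferInstance, inferInstance, alg, tow, gal, ?_, ?_⟩
  · intro g hg
    obtain ⟨g₂, hg₂⟩ := AlgEquiv.restrictNormalHom_surjective (F := K) (K₁ := N') N₂ g
    have hc : ∀ z : N', ((g z : N') : N₂) = g₂ (z : N₂) := by
      intro z
      rw [← hg₂]
      exact AlgEquiv.restrictNormal_commutes g₂ N' z
    have h2 : AlgEquiv.restrictNormalHom N g₂ = (1 : N ≃ₐ[K] N) := by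
      ext x
      apply (algebraMap N N₂).injective
      rw [res_comm, ← hval, ← hc]
      have h3 : algebraMap N N' ((AlgEquiv.restrictNormalHom N g : N ≃ₐ[K] N) x) =
          g (algebraMap N N' x) := AlgEquiv.restrictNormal_commutes g N x
      rw [← h3, hg]
      rfl
    have h4 : g₂ * g₂ ∈ U2 K N N₂ := Subgroup.subset_normalClosure ⟨g₂, h2, rfl⟩
    ext z
    show ((g (g z) : N') : N₂) = (z : N₂)
    rw [hc, hc]
    exact (hmem z).1 z.2 _ h4
  · rintro b ⟨y, hy⟩
    have h1 : y ∈ N' := by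
      rw [hmem]
      intro g hg
      exact U2_le_F K N N₂ hg y ⟨b, hy⟩
    exact ⟨⟨y, h1⟩, Subtype.ext hy⟩

end

end DFD

theorem DFD_thm (h1 : Stmt_SAP) (h3 : Stmt_AR3) : Stmt_DFD := by
  intro K N _ _ _ _ _ _
  have hα := fun (H : Subgroup (N ≃ₐ[K] N)) (Φ₀ : N →+* ℂ) => h1 K N H Φ₀
  choose α hα1 hα2 using hα
  have : Finite (N ≃ₐ[K] N) := inferInstance
  have : Finite (Subgroup (N ≃ₐ[K] N)) := inferInstance
  have : Fintype (Subgroup (N ≃ₐ[K] N)) := Fintype.ofFinite _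
  have : Fintype (N →+* ℂ) := inferInstance
  obtain ⟨N₂, _, _, _, _, _, _, hN₂⟩ :=
    h3 K N (insert (-1) (Finset.univ.image fun p : Subgroup (N ≃ₐ[K] N) × (N →+* ℂ) => α p.1 p.2))
  obtain ⟨N', _, _, _, _, _, _, hg, hy⟩ := DFD.exists_field (K := K) (N := N) (N₂ := N₂)
  refine ⟨N', inferInstance, inferInstance, inferInstance, inferInstance, inferInstance,
    inferInstance, hg, ?_, ?_⟩
  · obtain ⟨y, hy⟩ := hy (-1) (hN₂ (-1) (Finset.mem_insert_self _ _))
    exact ⟨y, by rw [hy, map_neg, map_one]⟩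
  · intro H Φ₀
    obtain ⟨y, hy⟩ := hy (α H Φ₀) (hN₂ (α H Φ₀) (Finset.mem_insert_of_mem
      (Finset.mem_image.2 ⟨(H, Φ₀), Finset.mem_univ _, rfl⟩)))
    exact ⟨α H Φ₀, y, hy, hα1 H Φ₀, hα2 H Φ₀⟩

end StarkC
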