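import Pool.Agent.StarkD.Stmts
import Pool.Agent.StarkI.SSPAN
import Pool.Agent.StarkS.CMBS
import Pool.Agent.Stark.QE

/-!
# Stark's conjecture up to sign, sharper reduction: removal of the `p`-elements (module DPST)
-/

open NumberField IsDedekindDomain
open scoped TensorProduct Classical

namespace StarkC
namespace DPST

open CMB SSPAN

section grp

variable {G : Type} [Group G] [Fintype G]

/-- Splitting of a combination into two parts. -/
theorem split (hSP : Stmt_SP) (hPULL : Stmt_IPULL) (hPROD : Stmt_SPROD) (p : ℕ) (hp : p.Prime)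
    {f : G → ℂ} (hf : f ∈ MC G) :
    ∃ (M m : ℕ) (Q : Fin m → Subgroup G) (n : Fin m → ℤ) (B : G → ℂ),
      0 < M ∧ Nat.Coprime p M ∧ (∀ i, ∀ g ∈ Q i, PElt p g) ∧
      (∀ g, (M : ℂ) * f g = ∑ i, (n i : ℂ) * indFun (Q i) f g + B g) ∧
      B ∈ MC G ∧ (∀ g, PElt p g → B g = 0) ∧ (∀ g, f g = 0 → B g = 0) ∧
      ∀ (D : Type) [Group D] [Fintype D] (r : D →* G) (P : ∀ B : Subgroup D, (B →* ℂˣ) → Prop),
        (∀ (B J : Subgroup D) (hJ : J ≤ B) (ν : B →* ℂˣ), P B ν →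
          P J (ν.comp (Subgroup.inclusion hJ))) →
        (fun d => f (r d)) ∈ GS P → (fun d => B (r d)) ∈ GS P := by
  obtain ⟨M, m, Q, n, hM, hcop, hQ, h⟩ := hSP p hp G
  have hAe : (fun g => f g * (if PElt p g then (M : ℂ) else 0)) =
      ∑ i, n i • indFun (Q i) f := by
    funext g
    rw [h g, Finset.sum_apply, Finset.mul_sum]
    refine Finset.sum_congr rfl fun i _ => ?_
    rw [Pi.smul_apply, zsmul_eq_mul, indFun_class (Q i) f (class_of_mc hf)]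
    ring
  have hA : (fun g => f g * (if PElt p g then (M : ℂ) else 0)) ∈ MC G := by
    rw [hAe]
    refine Submodule.sum_mem _ fun i _ => Submodule.smul_mem _ _ ?_
    exact ind_stage (Q i) (fun _ _ _ => trivial) f (pull_mem hPULL (Q i).subtype hf)
  refine ⟨M, m, Q, n, fun g => (M : ℂ) * f g - f g * (if PElt p g then (M : ℂ) else 0), hM, hcop,
    hQ, ?_, ?_, ?_, ?_, ?_⟩
  · intro g
    have h1 := congrFun hAe g
    rw [Finset.sum_apply] at h1
    have h2 : ∑ i, (n i : ℂ) * indFun (Q i) f g = ∑ i, (n i • indFun (Q i) f) g :=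
      Finset.sum_congr rfl fun i _ => by rw [Pi.smul_apply, zsmul_eq_mul]
    rw [h2, ← h1]
    ring
  · exact Submodule.sub_mem _ (nat_mul_mem hf M) hA
  · intro g hg
    simp only [hg, if_true]
    ring
  · intro g hg
    simp only [hg]
    ring
  · intro D _ _ r P hP hfr
    have e : (fun d => (M : ℂ) * f (r d) - f (r d) * (if PElt p (r d) then (M : ℂ) else 0)) =
        (fun d => (M : ℂ) * f (r d)) -
          ∑ i, n i • fun d => f (r d) * indFun (Q i) (fun _ => 1) (r d) := by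
      funext d
      rw [h (r d), Pi.sub_apply, Finset.sum_apply, Finset.mul_sum]
      congr 1
      refine Finset.sum_congr rfl fun i _ => ?_
      rw [Pi.smul_apply, zsmul_eq_mul]
      ring
    rw [e]
    refine Submodule.sub_mem _ (nat_mul_mem hfr M) ?_
    refine Submodule.sum_mem _ fun i _ => Submodule.smul_mem _ _ ?_
    exact mul_pull_mem hPULL hPROD r P hP hfr (Q i)

/-- Induction of combinations. -/
theorem indL_mem (A : Subgroup G) {P₀ : ∀ J : Subgroup A, (J →* ℂˣ) → Prop}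
    {P : ∀ J : Subgroup G, (J →* ℂˣ) → Prop}
    (h : ∀ (J : Subgroup A) (ψ : J →* ℂˣ), P₀ J ψ → P (J.map A.subtype) (MON.tr J ψ))
    {y : A → ℂ} (hy : y ∈ GS P₀) : MON.indL A y ∈ GS P := by
  obtain ⟨m, H, ψ, n, hP, hfg⟩ := of_mem_GS hy
  have e : y = ∑ i, n i • indFun (H i) (extZ (ψ i)) := by
    funext a
    rw [hfg a, Finset.sum_apply]
    refine Finset.sum_congr rfl fun i _ => ?_
    rw [Pi.smul_apply, zsmul_eq_mul]
  rw [e, map_sum]
  refine Submodule.sum_mem _ fun i _ => ?_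
  rw [map_zsmul, MON.indL_indFun]
  exact Submodule.smul_mem _ _ (mem_GS_of _ _ (h _ _ (hP i)))

end grp

/-- A complex conjugation is nontrivial on a field which contains a square root of `-1`. -/
theorem cc_ne_one {N : Type} [Field N] [NumberField N] (hi : ∃ i : N, i ^ 2 = -1)
    {c : N ≃ₐ[ℚ] N} (hc : IsCC c) : c ≠ 1 := by
  rintro rfl
  obtain ⟨Φ, hΦ⟩ := hc
  obtain ⟨i, hi⟩ := hi
  have h1 : (starRingEnd ℂ) (Φ i) = Φ i := by
    have := hΦ.eq i
    simpa using this.symm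
  have h2 : (Φ i) ^ 2 = -1 := by
    rw [← map_pow, hi, map_neg, map_one]
  obtain ⟨y, hy⟩ := Complex.conj_eq_iff_real.1 h1
  rw [hy] at h2
  have h3 : y ^ 2 = -1 := by exact_mod_cast h2
  nlinarith [sq_nonneg y]

/-- Odd primes. -/
theorem odd_case (hPULL : Stmt_IPULL) {p : ℕ} (hp : p.Prime) (hodd : Odd p)
    (E L N : Type) [Field E] [Field L] [NumberField L] [IsGalois ℚ L]
    [Field N] [NumberField N] [IsGalois ℚ N] [Algebra L N] [Algebra E L] [Algebra E N]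
    [IsScalarTower E L N] {f : (L ≃ₐ[ℚ] L) → ℂ} (hi : ∃ i : L, i ^ 2 = -1)
    (hf : f ∈ MC (L ≃ₐ[ℚ] L)) (Q : Subgroup (L ≃ₐ[ℚ] L)) (hQ : ∀ g ∈ Q, PElt p g) :
    (fun g : N ≃ₐ[ℚ] N => 2 * indFun Q f (AlgEquiv.restrictNormalHom L g)) ∈
      GS (G := N ≃ₐ[ℚ] N) fun H ψ => Ty1N E H ψ := by
  have h1 : indFun Q f ∈ GS (G := L ≃ₐ[ℚ] L) fun H ψ => Ty1N E H ψ := by
    refine ind_stage Q ?_ f (pull_mem hPULL Q.subtype hf)
    intro J ψ hJ
    refine ⟨?_, p, hp, ty1_of_p p hp E J ψ fun g hg => hQ g (hJ hg)⟩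
    intro c hc hcc
    obtain ⟨k, hk⟩ := hQ c (hJ hc)
    refine cc_ne_one hi hcc (QE.eq_one_of_two (n := 1) (hodd.pow (n := k)) hk ?_)
    rw [pow_one, pow_two]
    exact isCC_sq hcc
  have h2 : (fun g : N ≃ₐ[ℚ] N => indFun Q f (AlgEquiv.restrictNormalHom L g)) ∈
      GS (G := N ≃ₐ[ℚ] N) fun H ψ => Ty1N E H ψ := by
    refine infl_mem (P := fun H ψ => Ty1N E H ψ)
      (AlgEquiv.restrictNormalHom L : (N ≃ₐ[ℚ] N) →* (L ≃ₐ[ℚ] L))
      (AlgEquiv.restrictNormalHom_surjective N) ?_ h1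
    rintro H ψ ⟨hcc, q, hq, hty⟩
    exact ⟨fun c hc hc' => hcc _ hc (isCC_restrict hc'), q, hq, ty1_infl q H ψ hty⟩
  exact nat_mul_mem h2 2

/-- The prime 2. -/
theorem two_case (hDTG : Stmt_DTG) (hPULL : Stmt_IPULL)
    (E L N : Type) [Field E] [Field L] [NumberField L] [IsGalois ℚ L]
    [Field N] [NumberField N] [IsGalois ℚ N] [Algebra L N] [Algebra E N]
    (hfin : Finite (galEmb ℚ N).P) (hminus : HasMinus (galEmb ℚ N))
    (hsigns : HasSigns (galEmb ℚ N)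
      (AlgEquiv.restrictNormalHom L : (N ≃ₐ[ℚ] N) →* (L ≃ₐ[ℚ] L)).ker)
    (hexp : ∀ g : N ≃ₐ[ℚ] N, AlgEquiv.restrictNormalHom L g = (1 : L ≃ₐ[ℚ] L) → g * g = 1)
    {f : (L ≃ₐ[ℚ] L) → ℂ} (hf : f ∈ MC (L ≃ₐ[ℚ] L)) (hcc : ∀ c : L ≃ₐ[ℚ] L, IsCC c → f c = 0)
    (Q : Subgroup (L ≃ₐ[ℚ] L)) (hQ : ∀ g ∈ Q, PElt 2 g) :
    (fun g : N ≃ₐ[ℚ] N => 2 * indFun Q f (AlgEquiv.restrictNormalHom L g)) ∈
      GS (G := N ≃ₐ[ℚ] N) fun H ψ => Ty1N E H ψ := by
  set r : (N ≃ₐ[ℚ] N) →* (L ≃ₐ[ℚ] L) := AlgEquiv.restrictNormalHom L with hr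
  have hsurj : Function.Surjective r := AlgEquiv.restrictNormalHom_surjective N
  set A : Subgroup (N ≃ₐ[ℚ] N) := Q.comap r with hA
  let q : A →* Q := r.subgroupComap Q
  have hq : Function.Surjective q := by
    intro x
    obtain ⟨g, hg⟩ := hsurj x
    exact ⟨⟨g, show r g ∈ Q by rw [hg]; exact x.2⟩, Subtype.ext hg⟩
  have hqM : ∀ a, q a = 1 ↔ A.subtype a ∈ r.ker := by
    intro a
    rw [MonoidHom.mem_ker]
    constructor
    · intro h
      exact congrArg Subtype.val h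
    · intro h
      exact Subtype.ext h
  have hker : r.ker ≤ A.subtype.range := by
    intro x hx
    refine ⟨⟨x, ?_⟩, rfl⟩
    show r x ∈ Q
    rw [MonoidHom.mem_ker.1 hx]
    exact Q.one_mem
  have hQ2 : ∀ x : Q, PElt 2 x := by
    intro x
    obtain ⟨k, hk⟩ := hQ x x.2
    exact ⟨k, Subtype.ext (by rw [Subgroup.coe_pow, hk]; rfl)⟩
  have hcc1 : ∀ a : A, CCj (galEmb ℚ N) A.subtype a → IsCC (a : N ≃ₐ[ℚ] N) := by
    rintro a ⟨P, hP⟩
    refine ⟨P.1, ?_⟩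
    have h1 : ComplexEmbedding.IsConj P.1 ((galEmb ℚ N).c P) := P.2.choose_spec
    rw [← hP] at h1
    exact h1
  have hcc2 : ∀ a : A, IsCC (a : N ≃ₐ[ℚ] N) → CCj (galEmb ℚ N) A.subtype a := by
    rintro a ⟨Φ, hΦ⟩
    refine ⟨⟨Φ, a, hΦ⟩, ?_⟩
    have h2 : ComplexEmbedding.IsConj Φ ((galEmb ℚ N).c ⟨Φ, a, hΦ⟩) :=
      (⟨Φ, a, hΦ⟩ : (galEmb ℚ N).P).2.choose_spec
    exact hΦ.ext h2
  have h1 : (fun a : A => 2 * (fun x : Q => f x) (q a)) ∈ JJ (galEmb ℚ N) A.subtype := by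
    haveI := hfin
    refine hDTG (N ≃ₐ[ℚ] N) (galEmb ℚ N) r.ker hminus hsigns A Q A.subtype q A.subtype_injective
      hker hq hqM hQ2 (fun x : Q => f x) (comb_of_mc (pull_mem hPULL Q.subtype hf)) ?_
    intro a ha
    exact hcc _ (isCC_restrict (hcc1 a ha))
  have h2 : MON.indL A (fun a : A => 2 * (fun x : Q => f x) (q a)) ∈
      GS (G := N ≃ₐ[ℚ] N) fun H ψ => Ty1N E H ψ := by
    refine indL_mem A ?_ h1
    intro J ψ hJ
    refine ⟨?_, 2, Nat.prime_two, ty1_of_p 2 Nat.prime_two E _ _ ?_⟩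
    · rintro _ ⟨a, ha, rfl⟩ hc
      exact hJ a ha (hcc2 a hc)
    · rintro _ ⟨a, ha, rfl⟩
      obtain ⟨k, hk⟩ := hQ (r a) a.2
      refine ⟨k + 1, ?_⟩
      have h3 := hexp ((a : N ≃ₐ[ℚ] N) ^ (2 ^ k)) (by
        show r ((a : N ≃ₐ[ℚ] N) ^ (2 ^ k)) = 1
        rw [map_pow]
        exact hk)
      rw [← pow_add, ← two_mul, ← pow_succ'] at h3
      exact h3
  have h3 : (fun a : A => 2 * (fun x : Q => f x) (q a)) =
      (2 : ℤ) • fun a : A => (fun g => f (r g)) (a : N ≃ₐ[ℚ] N) := by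
    funext a
    rw [Pi.smul_apply, zsmul_eq_mul]
    push_cast
    rfl
  have h5 : MON.indL A (fun a : A => (fun g => f (r g)) (a : N ≃ₐ[ℚ] N)) =
      indFun A fun g => f (r g) := CMBS.indL_coe A fun g => f (r g)
  rw [h3, map_zsmul, h5] at h2
  have h4 : (fun g : N ≃ₐ[ℚ] N => 2 * indFun Q f (r g)) = (2 : ℤ) • indFun A fun g => f (r g) := by
    funext g
    rw [Pi.smul_apply, zsmul_eq_mul, indFun_infl r hsurj]
    push_cast
    rfl
  rw [h4]
  exact h2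

end DPST

open DPST CMB SSPAN in
theorem DPST_thm (hDTG : Stmt_DTG) (hDFD : Stmt_DFD) (hDVINF : Stmt_DVINF) (hSHS : Stmt_SHS)
    (hSP : Stmt_SP) (hPROD : Stmt_SPROD) (hPULL : Stmt_IPULL) : Stmt_DPST := by
  intro p hp E L _ _ _ _ _ _ f hi hf hcc
  have hf' : f ∈ MC (L ≃ₐ[ℚ] L) := mc_of_comb hf
  obtain ⟨M, m, Q, n, B, hM, hcop, hQ, hAB, hB, hBp, hB0, hBpull⟩ :=
    DPST.split hSP hPULL hPROD p hp hf'
  obtain ⟨N, iF, iNF, iA, iLN, iT, iG, hexp, hi', hsg⟩ := hDFD ℚ L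
  obtain ⟨hfin, hminus, hsigns⟩ := hSHS ℚ L N hi' hsg
  have hiA : iA = DivisionRing.toRatAlgebra := Subsingleton.elim _ _
  subst hiA
  letI : Algebra E N := ((algebraMap L N).comp (algebraMap E L)).toAlgebra
  haveI : IsScalarTower E L N := IsScalarTower.of_algebraMap_eq fun _ => rfl
  refine ⟨N, iF, iNF, iLN, inferInstance, inferInstance, iG, M,
    fun g => B (AlgEquiv.restrictNormalHom L g), hM, hcop, ?_, ?_, ?_, ?_, ?_⟩
  · exact comb_of_mc (infl_mem (AlgEquiv.restrictNormalHom L : (N ≃ₐ[ℚ] N) →* (L ≃ₐ[ℚ] L))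
      (AlgEquiv.restrictNormalHom_surjective N) (fun _ _ _ => trivial) hB)
  · rintro g ⟨k, hk⟩
    refine hBp _ ⟨k, ?_⟩
    rw [← map_pow, hk, map_one]
  · intro c hc
    exact hB0 _ (hcc _ (isCC_restrict hc))
  · intro T₀ hV
    refine hDVINF ℚ L N T₀ B ?_
    intro W
    obtain ⟨hV1, hV2⟩ := hV W
    refine ⟨fun hW g hg => hB0 g (hV1 hW g hg), fun hW => ?_⟩
    refine hBpull _ (decGrp ℚ W).subtype _ ?_ (hV2 hW)
    intro B J hJ ν hν b hb
    exact hν (Subgroup.inclusion hJ b) hb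
  · have e : (fun g : N ≃ₐ[ℚ] N => 2 * ((M : ℂ) * f (AlgEquiv.restrictNormalHom L g) -
        B (AlgEquiv.restrictNormalHom L g))) =
        ∑ i, n i • fun g : N ≃ₐ[ℚ] N =>
          2 * indFun (Q i) f (AlgEquiv.restrictNormalHom L g) := by
      funext g
      rw [hAB, add_sub_cancel_right, Finset.sum_apply, Finset.mul_sum]
      refine Finset.sum_congr rfl fun i _ => ?_
      rw [Pi.smul_apply, zsmul_eq_mul]
      ring
    rw [e]
    refine Submodule.sum_mem _ fun i _ => Submodule.smul_mem _ _ ?_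
    rcases hp.eq_two_or_odd' with rfl | hodd
    · exact two_case hDTG hPULL E L N hfin hminus hsigns hexp hf' hcc (Q i) (hQ i)
    · exact odd_case hPULL hp hodd E L N hi hf' (Q i) (hQ i)

end StarkC
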