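import Pool.Agent.StarkD.Stmts
import Pool.Agent.StarkT.TRIVX
import Pool.Agent.StarkT.RMAIN
import Pool.Agent.StarkT.CCQ
import Pool.Agent.StarkT.CMBT

/-!
# Stark's conjecture up to sign: the characters of `Gal(L/ℚ)` (module SD_QQ)
-/

open NumberField IsDedekindDomain
open scoped TensorProduct Classical

namespace StarkC

namespace DQQ

/-- The value of a character at all complex conjugations is one integer. -/
theorem char_cc {L : Type} [Field L] [NumberField L] [IsGalois ℚ L]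
    {V : Type} [AddCommGroup V] [Module ℂ V] [Module.Finite ℂ V]
    (ρ : Representation ℂ (L ≃ₐ[ℚ] L) V) :
    ∃ t : ℤ, ∀ c : L ≃ₐ[ℚ] L, IsCC c → ρ.character c = (t : ℂ) := by
  by_cases h : ∃ c0 : L ≃ₐ[ℚ] L, IsCC c0
  · obtain ⟨c0, Φ0, h0⟩ := h
    have h00 : c0 * c0 = 1 := CMB.isCC_sq ⟨Φ0, h0⟩
    obtain ⟨b, hb⟩ := CMBT.char_invol ρ c0 h00
    refine ⟨(Module.finrank ℂ V : ℤ) - 2 * (b : ℤ), ?_⟩
    rintro c ⟨Φ, hc⟩
    obtain ⟨ν, hν⟩ := NumberField.ComplexEmbedding.exists_comp_symm_eq_of_comp_eq (k := ℚ) Φ0 Φ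
      (Subsingleton.elim _ _)
    have h1 : ComplexEmbedding.IsConj (Φ0.comp (ν.symm : L →+* L)) (ν.symm⁻¹ * c0 * ν.symm) :=
      ComplexEmbedding.IsConj.comp h0 ν.symm
    rw [hν] at h1
    have h2 : ρ.character (ν.symm⁻¹ * c0 * ν.symm) = ρ.character c0 := by
      have h3 := ρ.char_conj c0 ν.symm⁻¹
      rw [inv_inv] at h3
      exact h3
    rw [hc.ext h1, h2, hb]
    push_cast
    ring
  · exact ⟨0, fun c hc => absurd ⟨c, hc⟩ h⟩

/-- An integral combination minus an integer constant. -/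
theorem isMonComb_sub {G : Type} [Group G] [Fintype G] (f : G → ℂ) (hf : IsMonComb f) (t : ℤ)
    (htop : ∀ g : G, indFun (⊤ : Subgroup G) (extZ (1 : (⊤ : Subgroup G) →* ℂˣ)) g = 1) :
    IsMonComb fun g => f g - (t : ℂ) := by
  obtain ⟨m, H, ψ, n, h⟩ := hf
  refine ⟨m + 1, Fin.cons ⊤ H, Fin.cons (α := fun i : Fin (m + 1) =>
    (Fin.cons ⊤ H : Fin (m + 1) → Subgroup G) i →* ℂˣ) (1 : (⊤ : Subgroup G) →* ℂˣ) ψ,
    Fin.cons (-t) n, fun g => ?_⟩
  show f g - (t : ℂ) = _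
  rw [Fin.sum_univ_succ]
  have h1 : (((Fin.cons (-t) n : Fin (m + 1) → ℤ) 0 : ℤ) : ℂ) *
      indFun ((Fin.cons ⊤ H : Fin (m + 1) → Subgroup G) 0)
        (extZ ((Fin.cons (α := fun i : Fin (m + 1) =>
          (Fin.cons ⊤ H : Fin (m + 1) → Subgroup G) i →* ℂˣ) (1 : (⊤ : Subgroup G) →* ℂˣ) ψ :
          ∀ i, (Fin.cons ⊤ H : Fin (m + 1) → Subgroup G) i →* ℂˣ) 0)) g = -(t : ℂ) := by
    have h2 := htop g
    show (((-t : ℤ)) : ℂ) * indFun (⊤ : Subgroup G) (extZ (1 : (⊤ : Subgroup G) →* ℂˣ)) g = _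
    rw [h2]
    push_cast
    ring
  have h3 : ∀ i : Fin m, (((Fin.cons (-t) n : Fin (m + 1) → ℤ) i.succ : ℤ) : ℂ) *
      indFun ((Fin.cons ⊤ H : Fin (m + 1) → Subgroup G) i.succ)
        (extZ ((Fin.cons (α := fun i : Fin (m + 1) =>
          (Fin.cons ⊤ H : Fin (m + 1) → Subgroup G) i →* ℂˣ) (1 : (⊤ : Subgroup G) →* ℂˣ) ψ :
          ∀ i, (Fin.cons ⊤ H : Fin (m + 1) → Subgroup G) i →* ℂˣ) i.succ)) g =
      (n i : ℂ) * indFun (H i) (extZ (ψ i)) g := fun i => rfl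
  rw [h1, Finset.sum_congr rfl fun i _ => h3 i, h g]
  ring

end DQQ

/-- MODULE SD_QQ -/
theorem DQQ_thm (hSP : Stmt_DSPANZ) (hTYP : Stmt_DTYP) (hBRA : Stmt_BRA) (hI : Stmt_INFL)
    (hL : Stmt_LINF) (hD : Stmt_INDX) (hQC : Stmt_QCS) : Stmt_DQQ := by
  intro R hR σ P hP1 hPm T E _ _ _ hRD L _ _ _ S φ Θ V V' _ _ _ _ _ _ ρ ρ' hφ hσ
  obtain ⟨t, ht⟩ := DQQ.char_cc ρ
  obtain ⟨N, _, _, _, _, _, hspan⟩ := hSP T E L (fun g => ρ.character g - (t : ℂ))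
    (DQQ.isMonComb_sub _ (hBRA _ V ρ) t TRIVT.indFun_top) (fun c hc => by
      rw [ht c hc, sub_self])
  obtain ⟨m, H, ψ, n, hgood, hchar⟩ := CMB.of_mem_GS hspan
  obtain ⟨φ', Θ', hφ', hReg⟩ := hI ℚ L N S φ Θ hφ
  have hinst : ∀ i, ∃ (Mi : ℕ)
      (S' : Finset (HeightOneSpectrum (𝓞 (IntermediateField.fixedField (H i))))),
      P Mi ∧ aboveSet (IntermediateField.fixedField (H i)) N S' = aboveSet ℚ N S ∧
      RelAt R Mi (S' : Set (HeightOneSpectrum (𝓞 (IntermediateField.fixedField (H i)))))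
        (aboveSet ℚ N S) Θ' (linRep (liftChar (H i) (ψ i)))
        (linRep (twist σ (liftChar (H i) (ψ i)))) := by
    intro i
    obtain ⟨S', hS'⟩ := IND.exists_S' (IntermediateField.fixedField (H i))
      (S : Set (HeightOneSpectrum (𝓞 ℚ))) S.finite_toSet
    obtain ⟨Mi, hMi, hrel⟩ := TRIVX.relLinP_cast R P 1 σ (liftChar (H i) (ψ i))
      (hTYP R σ P T E hRD N (H i) (ψ i) (hgood i)) S' _ hS' φ' Θ' (IND.isPhiTheta_sub _ hφ')
    rw [one_mul] at hrel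
    exact ⟨Mi, S', hMi, hS', hrel⟩
  choose Mi Si hMi hSi hrel using hinst
  set Q : ℕ := ∏ i, Mi i with hQ
  set q : Fin m → ℕ := fun i => ∏ j ∈ Finset.univ.erase i, Mi j with hq
  have hk : ∀ i, Q = q i * Mi i := fun i => by
    rw [hQ, hq, mul_comm]
    exact (Finset.mul_prod_erase _ _ (Finset.mem_univ i)).symm
  have hPQ : P Q := TRIVX.prod_mem P hP1 hPm Mi hMi _
  set H' : Fin (m + 1) → Subgroup (N ≃ₐ[ℚ] N) := Fin.cons ⊤ H with hH'
  set ψ' : ∀ i : Fin (m + 1), H' i →* ℂˣ :=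
    Fin.cons (α := fun i : Fin (m + 1) => H' i →* ℂˣ) (1 : (⊤ : Subgroup (N ≃ₐ[ℚ] N)) →* ℂˣ) ψ
    with hψ'
  set n' : Fin (m + 1) → ℤ := Fin.cons t (fun i => n i * (q i : ℤ)) with hn'
  set k' : Fin (m + 1) → ℕ := Fin.cons (2 * Q) Mi with hk'
  obtain ⟨f, f', hf, hf', hE⟩ := hD R hR σ ℚ N S φ' Θ' V V'
    (ρ.comp (AlgEquiv.restrictNormalHom L)) (ρ'.comp (AlgEquiv.restrictNormalHom L)) (2 * Q)
    (m + 1) H' ψ' n' k' hφ' (fun g => hσ _) (by
      intro g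
      rw [Fin.sum_univ_succ]
      have h0 : ((n' 0 : ℤ) : ℂ) * (((k' 0 : ℕ) : ℂ) * indFun (H' 0) (extZ (ψ' 0)) g) =
          (t : ℂ) * (2 * (Q : ℂ)) := by
        have h1 : indFun (H' 0) (extZ (ψ' 0)) g = 1 := TRIVT.indFun_top g
        rw [h1, hn', hk', Fin.cons_zero, Fin.cons_zero]
        push_cast
        ring
      have h2 : ∀ i : Fin m, ((n' i.succ : ℤ) : ℂ) * (((k' i.succ : ℕ) : ℂ) *
          indFun (H' i.succ) (extZ (ψ' i.succ)) g) =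
          (Q : ℂ) * ((n i : ℂ) * indFun (H i) (extZ (ψ i)) g) := by
        intro i
        have h3 : indFun (H' i.succ) (extZ (ψ' i.succ)) g = indFun (H i) (extZ (ψ i)) g := rfl
        rw [h3, hn', hk', Fin.cons_succ, Fin.cons_succ, hk i]
        push_cast
        ring
      rw [h0, Finset.sum_congr rfl fun i _ => h2 i, ← Finset.mul_sum]
      have h4 := hchar g
      have h5 : Representation.character (k := ℂ) (G := N ≃ₐ[ℚ] N) (V := V)
        (ρ.comp (AlgEquiv.restrictNormalHom L)) g =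
          ρ.character (AlgEquiv.restrictNormalHom L g) := rfl
      rw [h5, ← h4]
      push_cast
      ring) (by
      intro i
      refine Fin.cases ?_ ?_ i
      · have h1 : Module.finrank ℚ (IntermediateField.fixedField
            (⊤ : Subgroup (N ≃ₐ[ℚ] N))) = 1 := by
          rw [IsGalois.fixedField_top, IntermediateField.finrank_bot]
        obtain ⟨S', hS'⟩ := IND.exists_S' (IntermediateField.fixedField
          (⊤ : Subgroup (N ≃ₐ[ℚ] N))) (S : Set (HeightOneSpectrum (𝓞 ℚ))) S.finite_toSet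
        exact ⟨S', hS', TRIVX.relLin_cast R (2 * Q) σ _
          (hQC R hR σ (2 * Q) (IntermediateField.fixedField (⊤ : Subgroup (N ≃ₐ[ℚ] N))) N h1)
          S' _ hS' φ' Θ' (IND.isPhiTheta_sub _ hφ')⟩
      · intro i
        exact ⟨Si i, hSi i, hrel i⟩)
  refine ⟨Q, hPQ, f, f', ⟨hf.1, fun s hs => ?_⟩, ⟨hf'.1, fun s hs => ?_⟩, ?_⟩
  · rw [hf.2 s hs, MAIN.logL_infl hL]
  · rw [hf'.2 s hs, MAIN.logL_infl hL]
  · rw [hReg V ρ, hReg V' ρ'] at hE
    exact hE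

end StarkC
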