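import Pool.Agent.StarkD.Stmts
import Pool.Agent.StarkI.SSPAN
import Pool.Agent.StarkI.SSPANZ

/-!
# Stark's conjecture up to sign: `2 M f` is in the span (module SD_SPAN)

Written by helper5.
-/

open NumberField IsDedekindDomain
open scoped TensorProduct Classical

namespace StarkC
namespace DSPAN

open CMB SSPAN

section types

variable {E N₀ N : Type} [Field E] [Field N₀] [NumberField N₀] [Field N] [NumberField N]
  [Algebra E N₀] [Algebra N₀ N] [Algebra E N] [IsScalarTower E N₀ N] [IsGalois ℚ N₀]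
  [IsGalois ℚ N]

/-- Type 1 without complex conjugations is inherited by inflation. -/
theorem ty1N_infl (H : Subgroup (N₀ ≃ₐ[ℚ] N₀)) (ψ : H →* ℂˣ) (h : Ty1N E H ψ) :
    Ty1N E (H.comap (AlgEquiv.restrictNormalHom N₀ : (N ≃ₐ[ℚ] N) →* (N₀ ≃ₐ[ℚ] N₀)))
      (ψ.comp ((AlgEquiv.restrictNormalHom N₀ : (N ≃ₐ[ℚ] N) →* (N₀ ≃ₐ[ℚ] N₀)).subgroupComap
        H)) := by
  obtain ⟨h1, q, hq, h2⟩ := h
  exact ⟨fun c hc hcc => h1 _ hc (CMB.isCC_restrict hcc), q, hq, ty1_infl q H ψ h2⟩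

end types

section types2

variable {N₀ N : Type} [Field N₀] [NumberField N₀] [Field N] [NumberField N]
  [Algebra N₀ N] [IsGalois ℚ N₀] [IsGalois ℚ N]

theorem cc_van (f : (N₀ ≃ₐ[ℚ] N₀) → ℂ) (hf : ∀ c : N₀ ≃ₐ[ℚ] N₀, IsCC c → f c = 0)
    (c : N ≃ₐ[ℚ] N) (hc : IsCC c) : f (AlgEquiv.restrictNormalHom N₀ c) = 0 :=
  hf _ (CMB.isCC_restrict hc)

end types2

end DSPAN

open DSPAN SSPAN CMB

theorem DSPAN_thm (h6 : StarkC.Stmt_SCOMP) (hP : StarkC.Stmt_DPST) (hS : StarkC.Stmt_DSTEP)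
    (hL : StarkC.Stmt_DLOC) : StarkC.Stmt_DSPAN := by
  intro p hp T E _ _ _ L _ _ _ f hf hfc
  -- level N₀
  obtain ⟨N₀, _, _, _, _, _, hi₀⟩ := h6 E L
  have hf' : (fun g : N₀ ≃ₐ[ℚ] N₀ => f (AlgEquiv.restrictNormalHom L g)) ∈ MC (N₀ ≃ₐ[ℚ] N₀) :=
    infl_mem (AlgEquiv.restrictNormalHom L : (N₀ ≃ₐ[ℚ] N₀) →* (L ≃ₐ[ℚ] L))
      (AlgEquiv.restrictNormalHom_surjective N₀) (fun _ _ _ => trivial) (mc_of_comb hf)
  -- level Na
  obtain ⟨Na, _, _, _, _, _, _, Ma, fa, hMa, hca, hfa, hfa0, hfac, -, ha⟩ :=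
    hP p hp E N₀ _ hi₀ (comb_of_mc hf') (fun c hc => cc_van f hfc c hc)
  -- level Nb
  obtain ⟨Nb, _, _, _, _, T₀, Mb, fb, hT, hMb, hcb, hib, hfb, hVb, hfbc, hb⟩ :=
    hS p hp T Na fa hfa hfa0 hfac
  letI : Algebra E Nb := ((algebraMap Na Nb).comp (algebraMap E Na)).toAlgebra
  haveI : IsScalarTower E Na Nb := IsScalarTower.of_algebraMap_eq fun _ => rfl
  -- level Nc
  obtain ⟨Nc, _, _, _, _, _, _, Mc, fc, hMc, hcc, hfc1, hfc0, hfcc, hVc, hc⟩ :=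
    hP p hp E Nb fb hib hfb hfbc
  have hic : ∃ i : Nc, i ^ 2 = -1 := by
    obtain ⟨i, hi⟩ := hib
    exact ⟨algebraMap Nb Nc i, by rw [← map_pow, hi, map_neg, map_one]⟩
  -- level Nd
  obtain ⟨Nd, iF, iNF, iA, iA₁, iT, iG, Md, hMd, hcd, hd⟩ :=
    hL p hp T T₀ hT ℚ Nc fc hic hfc1 hfc0 hfcc (hVc T₀ hVb)
  have hiA : iA = DivisionRing.toRatAlgebra := Subsingleton.elim _ _
  subst hiA
  letI : Algebra Nb Nd := ((algebraMap Nc Nd).comp (algebraMap Nb Nc)).toAlgebra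
  haveI : IsScalarTower Nb Nc Nd := IsScalarTower.of_algebraMap_eq fun _ => rfl
  letI : Algebra Na Nd := ((algebraMap Nb Nd).comp (algebraMap Na Nb)).toAlgebra
  haveI : IsScalarTower Na Nb Nd := IsScalarTower.of_algebraMap_eq fun _ => rfl
  letI : Algebra N₀ Nd := ((algebraMap Na Nd).comp (algebraMap N₀ Na)).toAlgebra
  haveI : IsScalarTower N₀ Na Nd := IsScalarTower.of_algebraMap_eq fun _ => rfl
  letI : Algebra L Nd := ((algebraMap N₀ Nd).comp (algebraMap L N₀)).toAlgebra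
  haveI : IsScalarTower L N₀ Nd := IsScalarTower.of_algebraMap_eq fun _ => rfl
  letI : Algebra E Nd := ((algebraMap Nc Nd).comp (algebraMap E Nc)).toAlgebra
  haveI : IsScalarTower E Nc Nd := IsScalarTower.of_algebraMap_eq fun _ => rfl
  haveI : IsScalarTower E Na Nd := IsScalarTower.of_algebraMap_eq fun x => by
    show algebraMap Nc Nd (algebraMap E Nc x) =
      algebraMap Nc Nd (algebraMap Nb Nc (algebraMap Na Nb (algebraMap E Na x)))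
    rw [IsScalarTower.algebraMap_apply E Nb Nc]
    rfl
  refine ⟨Nd, iF, iNF, inferInstance, inferInstance, iG, Md * Mc * Mb * Ma, ?_, ?_, ?_⟩
  · positivity
  · exact ((hcd.mul_right hcc).mul_right hcb).mul_right hca
  set P : ∀ H : Subgroup (Nd ≃ₐ[ℚ] Nd), (H →* ℂˣ) → Prop := fun H ψ =>
    Ty1N E H ψ ∨ Ty2 T H ψ ∨ Ty3 H ψ with hPdef
  have k1 : (fun g : Nd ≃ₐ[ℚ] Nd => 2 * ((Ma : ℂ) * f (AlgEquiv.restrictNormalHom L
      (AlgEquiv.restrictNormalHom N₀ (AlgEquiv.restrictNormalHom Na g : Na ≃ₐ[ℚ] Na) :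
        N₀ ≃ₐ[ℚ] N₀)) - fa (AlgEquiv.restrictNormalHom Na g))) ∈ GS P := by
    refine infl_mem (P := fun H ψ => Ty1N E H ψ)
      (AlgEquiv.restrictNormalHom Na : (Nd ≃ₐ[ℚ] Nd) →* (Na ≃ₐ[ℚ] Na))
      (AlgEquiv.restrictNormalHom_surjective Nd) ?_ ha
    intro H ψ h
    exact Or.inl (ty1N_infl H ψ h)
  have k2 : (fun g : Nd ≃ₐ[ℚ] Nd => (Mb : ℂ) * fa (AlgEquiv.restrictNormalHom Na
      (AlgEquiv.restrictNormalHom Nb g : Nb ≃ₐ[ℚ] Nb)) -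
        fb (AlgEquiv.restrictNormalHom Nb g)) ∈ GS P := by
    refine infl_mem (P := fun H ψ => Ty3 H ψ)
      (AlgEquiv.restrictNormalHom Nb : (Nd ≃ₐ[ℚ] Nd) →* (Nb ≃ₐ[ℚ] Nb))
      (AlgEquiv.restrictNormalHom_surjective Nd) ?_ hb
    intro H ψ h
    exact Or.inr (Or.inr (ty3_infl H ψ h))
  have k3 : (fun g : Nd ≃ₐ[ℚ] Nd => 2 * ((Mc : ℂ) * fb (AlgEquiv.restrictNormalHom Nb
      (AlgEquiv.restrictNormalHom Nc g : Nc ≃ₐ[ℚ] Nc)) -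
        fc (AlgEquiv.restrictNormalHom Nc g))) ∈ GS P := by
    refine infl_mem (P := fun H ψ => Ty1N E H ψ)
      (AlgEquiv.restrictNormalHom Nc : (Nd ≃ₐ[ℚ] Nd) →* (Nc ≃ₐ[ℚ] Nc))
      (AlgEquiv.restrictNormalHom_surjective Nd) ?_ hc
    intro H ψ h
    exact Or.inl (ty1N_infl H ψ h)
  have k4 : (fun g : Nd ≃ₐ[ℚ] Nd => (Md : ℂ) * fc (AlgEquiv.restrictNormalHom Nc g)) ∈ GS P :=
    GS_mono (fun H ψ h => Or.inr (Or.inl h)) hd
  have key : (fun g : Nd ≃ₐ[ℚ] Nd => 2 * (((Md * Mc * Mb * Ma : ℕ) : ℂ) *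
      f (AlgEquiv.restrictNormalHom L g))) =
      (fun g : Nd ≃ₐ[ℚ] Nd => ((Md * Mc * Mb : ℕ) : ℂ) *
        (2 * ((Ma : ℂ) * f (AlgEquiv.restrictNormalHom L
          (AlgEquiv.restrictNormalHom N₀ (AlgEquiv.restrictNormalHom Na g : Na ≃ₐ[ℚ] Na) :
            N₀ ≃ₐ[ℚ] N₀)) - fa (AlgEquiv.restrictNormalHom Na g)))) +
      (fun g : Nd ≃ₐ[ℚ] Nd => ((2 * (Md * Mc) : ℕ) : ℂ) *
        ((Mb : ℂ) * fa (AlgEquiv.restrictNormalHom Na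
          (AlgEquiv.restrictNormalHom Nb g : Nb ≃ₐ[ℚ] Nb)) -
            fb (AlgEquiv.restrictNormalHom Nb g))) +
      (fun g : Nd ≃ₐ[ℚ] Nd => ((Md : ℕ) : ℂ) *
        (2 * ((Mc : ℂ) * fb (AlgEquiv.restrictNormalHom Nb
          (AlgEquiv.restrictNormalHom Nc g : Nc ≃ₐ[ℚ] Nc)) -
            fc (AlgEquiv.restrictNormalHom Nc g)))) +
      (fun g : Nd ≃ₐ[ℚ] Nd => ((2 : ℕ) : ℂ) *
        ((Md : ℂ) * fc (AlgEquiv.restrictNormalHom Nc g))) := by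
    funext g
    simp only [Pi.add_apply]
    have r1 : AlgEquiv.restrictNormalHom N₀ (AlgEquiv.restrictNormalHom Na g : Na ≃ₐ[ℚ] Na) =
        (AlgEquiv.restrictNormalHom N₀ g : N₀ ≃ₐ[ℚ] N₀) := SSPAN.res_res g
    have r2 : AlgEquiv.restrictNormalHom L (AlgEquiv.restrictNormalHom N₀ g : N₀ ≃ₐ[ℚ] N₀) =
        (AlgEquiv.restrictNormalHom L g : L ≃ₐ[ℚ] L) := SSPAN.res_res g
    have r3 : AlgEquiv.restrictNormalHom Na (AlgEquiv.restrictNormalHom Nb g : Nb ≃ₐ[ℚ] Nb) =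
        (AlgEquiv.restrictNormalHom Na g : Na ≃ₐ[ℚ] Na) := SSPAN.res_res g
    have r4 : AlgEquiv.restrictNormalHom Nb (AlgEquiv.restrictNormalHom Nc g : Nc ≃ₐ[ℚ] Nc) =
        (AlgEquiv.restrictNormalHom Nb g : Nb ≃ₐ[ℚ] Nb) := SSPAN.res_res g
    rw [r1, r2, r3, r4]
    push_cast
    ring
  rw [key]
  exact Submodule.add_mem _ (Submodule.add_mem _ (Submodule.add_mem _ (nat_mul_mem k1 _)
    (nat_mul_mem k2 _)) (nat_mul_mem k3 _)) (nat_mul_mem k4 _)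

end StarkC
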