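import Pool.Agent.StarkD.Stmts
import Pool.Agent.StarkI.SSPANZ
import Pool.Agent.StarkI.SCOMP

/-!
# Stark's conjecture up to sign, sharper reduction: the integral form (module SD_SPANZ)

The integers `m` for which `2 m f` is in the span over some larger field form an ideal of `ℤ`
which is contained in no prime ideal. Compare `StarkI/SSPANZ.lean`.
-/

open NumberField IsDedekindDomain
open scoped TensorProduct Classical

namespace StarkC.DSPANZ

section infl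

variable {N N' : Type} [Field N] [NumberField N] [Field N']
  [NumberField N'] [Algebra N N'] [IsGalois ℚ N] [IsGalois ℚ N']

variable {E : Type} [Field E] [Algebra E N] [Algebra E N']

/-- The three types. -/
def Tys (T : Finset ℕ) (E N : Type) [Field E] [Field N] [NumberField N] [Algebra E N]
    (H : Subgroup (N ≃ₐ[ℚ] N)) (ψ : H →* ℂˣ) : Prop :=
  Ty1N E H ψ ∨ Ty2 T H ψ ∨ Ty3 H ψ

theorem tys_infl (hE : ∀ x : E, ∃ y : E, algebraMap E N' x = algebraMap N N' (algebraMap E N y))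
    (T : Finset ℕ) (H : Subgroup (N ≃ₐ[ℚ] N)) (ψ : H →* ℂˣ) (h : Tys T E N H ψ)
    (r : (N' ≃ₐ[ℚ] N') →* (N ≃ₐ[ℚ] N)) (hr : r = AlgEquiv.restrictNormalHom N) :
    Tys T E N' (H.comap r) (ψ.comp (r.subgroupComap H)) := by
  subst hr
  rcases h with ⟨hno, q, hq, ⟨a, ha⟩, hE'⟩ | ⟨h1, h2, h3⟩ | h
  · refine Or.inl ⟨?_, q, hq, ⟨a, ?_⟩, ?_⟩
    · intro c hc hcc
      exact hno _ hc (CMB.isCC_restrict (L := N) hcc)
    · refine MonoidHom.ext fun x => ?_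
      rw [MonoidHom.pow_apply, MonoidHom.one_apply, MonoidHom.comp_apply, ← MonoidHom.pow_apply,
        ha, MonoidHom.one_apply]
    · intro g hg
      obtain ⟨k, hk⟩ := hE' _ hg
      refine ⟨k, fun x => ?_⟩
      obtain ⟨y, hy⟩ := hE x
      rw [hy]
      have e3 : algebraMap N N' ((AlgEquiv.restrictNormalHom N (g ^ (q ^ k)) : N ≃ₐ[ℚ] N)
          (algebraMap E N y)) = (g ^ (q ^ k)) (algebraMap N N' (algebraMap E N y)) :=
        AlgEquiv.restrictNormal_commutes (g ^ (q ^ k)) N (algebraMap E N y)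
      rw [← e3, map_pow, hk y]
  · refine Or.inr (Or.inl ⟨?_, ?_, ?_⟩)
    · intro c hc hcc
      exact h1 _ hc (CMB.isCC_restrict (L := N) hcc)
    · intro w g hg
      exact h2 (w.under (𝓞 N)) ⟨AlgEquiv.restrictNormalHom N g.1, g.2⟩ (RB.frob_restrict hg)
    · intro w hw g hg
      obtain ⟨q, hq1, hq2, hq3⟩ := hw
      exact h3 (w.under (𝓞 N)) ⟨q, hq1, hq2, (RB.natCast_mem_under w q).2 hq3⟩
        ⟨AlgEquiv.restrictNormalHom N g.1, g.2⟩ (RB.dec_restrict hg)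
  · refine Or.inr (Or.inr ?_)
    intro c hc
    obtain ⟨h4, h5⟩ := h _ (CMB.isCC_restrict (L := N) hc)
    exact ⟨h4, h5⟩

theorem infl_GS (hE : ∀ x : E, ∃ y : E, algebraMap E N' x = algebraMap N N' (algebraMap E N y))
    (T : Finset ℕ) {F : (N ≃ₐ[ℚ] N) → ℂ} (hF : F ∈ CMB.GS (G := N ≃ₐ[ℚ] N) (Tys T E N)) :
    (fun g : N' ≃ₐ[ℚ] N' => F (AlgEquiv.restrictNormalHom N g)) ∈
      CMB.GS (G := N' ≃ₐ[ℚ] N') (Tys T E N') := by
  obtain ⟨m, H, ψ, n, hP, hF'⟩ := CMB.of_mem_GS hF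
  set r : (N' ≃ₐ[ℚ] N') →* (N ≃ₐ[ℚ] N) := AlgEquiv.restrictNormalHom N with hr
  have hsurj : Function.Surjective r := AlgEquiv.restrictNormalHom_surjective N'
  have e1 : (fun g : N' ≃ₐ[ℚ] N' => F (r g)) =
      ∑ i, n i • indFun ((H i).comap r) (extZ ((ψ i).comp (r.subgroupComap (H i)))) := by
    funext g
    rw [hF', Finset.sum_apply]
    refine Finset.sum_congr rfl fun i _ => ?_
    rw [Pi.smul_apply, zsmul_eq_mul, CMB.indFun_infl r hsurj]
    rfl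
  rw [e1]
  exact Submodule.sum_mem _ fun i _ => Submodule.smul_mem _ _
    (CMB.mem_GS_of _ _ (tys_infl hE T (H i) (ψ i) (hP i) r hr))

end infl

/-- The multiples of `f` in the span over some larger field. -/
def Mul (T : Finset ℕ) (E L : Type) [Field E] [NumberField E] [IsGalois ℚ E] [Field L]
    [NumberField L] [IsGalois ℚ L] (f : (L ≃ₐ[ℚ] L) → ℂ) (m : ℤ) : Prop :=
  ∃ (N : Type) (_ : Field N) (_ : NumberField N) (_ : Algebra L N) (_ : Algebra E N)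
    (_ : IsGalois ℚ N), (fun g : N ≃ₐ[ℚ] N => (m : ℂ) * f (AlgEquiv.restrictNormalHom L g)) ∈
      CMB.GS (G := N ≃ₐ[ℚ] N) (Tys T E N)

theorem Mul.add (hc : StarkC.Stmt_SCOMP) {T : Finset ℕ} {E L : Type} [Field E] [NumberField E]
    [IsGalois ℚ E] [Field L] [NumberField L] [IsGalois ℚ L] {f : (L ≃ₐ[ℚ] L) → ℂ} {m n : ℤ}
    (hm : Mul T E L f m) (hn : Mul T E L f n) : Mul T E L f (m + n) := by
  obtain ⟨N₁, iF1, iN1, aL1, aE1, iG1, h1⟩ := hm
  obtain ⟨N₂, iF2, iN2, aL2, aE2, iG2, h2⟩ := hn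
  obtain ⟨N, iF, iN, a1, a2, iG, h⟩ := SSPANZ.common hc L N₁ N₂
  let aL : Algebra L N := ((algebraMap N₁ N).comp (algebraMap L N₁)).toAlgebra
  let aE : Algebra E N := ((algebraMap N₁ N).comp (algebraMap E N₁)).toAlgebra
  refine ⟨N, iF, iN, aL, aE, iG, ?_⟩
  have g1 := infl_GS (N := N₁) (N' := N) (E := E) (fun x => ⟨x, rfl⟩) T h1
  have g2 := infl_GS (N := N₂) (N' := N) (E := E)
    (fun x => SSPANZ.same_range ((algebraMap N₁ N).comp (algebraMap E N₁))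
      ((algebraMap N₂ N).comp (algebraMap E N₂)) x) T h2
  have e : (fun g : N ≃ₐ[ℚ] N => ((m + n : ℤ) : ℂ) * f (AlgEquiv.restrictNormalHom L g)) =
      (fun g : N ≃ₐ[ℚ] N => (m : ℂ) * f (AlgEquiv.restrictNormalHom L
        (AlgEquiv.restrictNormalHom N₁ g : N₁ ≃ₐ[ℚ] N₁))) +
      (fun g : N ≃ₐ[ℚ] N => (n : ℂ) * f (AlgEquiv.restrictNormalHom L
        (AlgEquiv.restrictNormalHom N₂ g : N₂ ≃ₐ[ℚ] N₂))) := by
    funext g
    rw [Pi.add_apply, SSPANZ.res_res (L := L) (N := N₁) (N' := N) (fun x => rfl),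
      SSPANZ.res_res (L := L) (N := N₂) (N' := N) (fun x => (h x).symm)]
    push_cast
    ring
  rw [e]
  exact Submodule.add_mem _ g1 g2

theorem Mul.smul {T : Finset ℕ} {E L : Type} [Field E] [NumberField E]
    [IsGalois ℚ E] [Field L] [NumberField L] [IsGalois ℚ L] {f : (L ≃ₐ[ℚ] L) → ℂ} {m : ℤ} (n : ℤ)
    (hm : Mul T E L f m) : Mul T E L f (n * m) := by
  obtain ⟨N₁, iF1, iN1, aL1, aE1, iG1, h1⟩ := hm
  refine ⟨N₁, iF1, iN1, aL1, aE1, iG1, ?_⟩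
  have e : (fun g : N₁ ≃ₐ[ℚ] N₁ => ((n * m : ℤ) : ℂ) * f (AlgEquiv.restrictNormalHom L g)) =
      n • (fun g : N₁ ≃ₐ[ℚ] N₁ => (m : ℂ) * f (AlgEquiv.restrictNormalHom L g)) := by
    funext g
    rw [Pi.smul_apply, zsmul_eq_mul]
    push_cast
    ring
  rw [e]
  exact Submodule.smul_mem _ _ h1

end StarkC.DSPANZ

namespace StarkC

open StarkC.DSPANZ in
/-- The integral form. -/
theorem DSPANZ_thm (h1 : StarkC.Stmt_DSPAN) : StarkC.Stmt_DSPANZ := by
  intro T E _ _ _ L _ _ _ f hf hf0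
  have h2 : StarkC.Stmt_SCOMP := SCOMP_thm
  obtain ⟨f₂, hf₂⟩ : ∃ f₂ : (L ≃ₐ[ℚ] L) → ℂ, ∀ g, f₂ g = 2 * f g := ⟨fun g => 2 * f g, fun g => rfl⟩
  have hS : ∀ p : ℕ, p.Prime → ∃ M : ℕ, 0 < M ∧ Nat.Coprime p M ∧
      DSPANZ.Mul T E L f₂ (M : ℤ) := by
    intro p hp
    obtain ⟨N, iF, iN, aL, aE, iG, M, hM, hpM, h⟩ := h1 p hp T E L f hf hf0
    refine ⟨M, hM, hpM, N, iF, iN, aL, aE, iG, ?_⟩
    have e : (fun g : N ≃ₐ[ℚ] N => (((M : ℕ) : ℤ) : ℂ) *
        f₂ (AlgEquiv.restrictNormalHom L g)) =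
        (fun g : N ≃ₐ[ℚ] N => 2 * ((M : ℂ) * f (AlgEquiv.restrictNormalHom L g))) := by
      funext g
      rw [hf₂]
      push_cast
      ring
    rw [e]
    exact h
  obtain ⟨M₂, hM₂, -, hM₂'⟩ := hS 2 Nat.prime_two
  let I : Ideal ℤ :=
    { carrier := {m | DSPANZ.Mul T E L f₂ m}
      add_mem' := fun ha hb => DSPANZ.Mul.add h2 ha hb
      zero_mem' := by
        have := DSPANZ.Mul.smul 0 hM₂'
        rwa [zero_mul] at this
      smul_mem' := fun c x hx => DSPANZ.Mul.smul c hx }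
  have hI : ∀ m : ℤ, m ∈ I ↔ DSPANZ.Mul T E L f₂ m := fun m => Iff.rfl
  have htop : I = ⊤ := by
    by_contra hne
    obtain ⟨J, hJ, hIJ⟩ := Ideal.exists_le_maximal I hne
    obtain ⟨d, hd⟩ := (IsPrincipalIdealRing.principal J).principal
    have hJs : J = Ideal.span {d} := hd
    have hM₂J : (M₂ : ℤ) ∈ J := hIJ ((hI _).2 hM₂')
    have hd0 : d ≠ 0 := by
      rintro rfl
      rw [hJs, Ideal.mem_span_singleton, zero_dvd_iff] at hM₂J
      have : M₂ = 0 := by exact_mod_cast hM₂J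
      omega
    have hprime : Prime d := by
      rw [← Ideal.span_singleton_prime hd0, ← hJs]
      exact hJ.isPrime
    have hp : (d.natAbs).Prime := Int.prime_iff_natAbs_prime.1 hprime
    obtain ⟨M, hM, hpM, hM'⟩ := hS _ hp
    have hMJ : (M : ℤ) ∈ J := hIJ ((hI _).2 hM')
    rw [hJs, Ideal.mem_span_singleton] at hMJ
    have hdM : d.natAbs ∣ M := by
      have := Int.natAbs_dvd_natAbs.2 hMJ
      simpa using this
    have := Nat.Coprime.eq_one_of_dvd hpM hdM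
    exact hp.one_lt.ne' this
  have h1I : DSPANZ.Mul T E L f₂ 1 := by
    rw [← hI, htop]
    trivial
  obtain ⟨N, iF, iN, aL, aE, iG, h⟩ := h1I
  refine ⟨N, iF, iN, aL, aE, iG, ?_⟩
  have e : (fun g : N ≃ₐ[ℚ] N => 2 * f (AlgEquiv.restrictNormalHom L g)) =
      (fun g : N ≃ₐ[ℚ] N => ((1 : ℤ) : ℂ) * f₂ (AlgEquiv.restrictNormalHom L g)) := by
    funext g
    rw [hf₂]
    simp
  rw [e]
  exact h

end StarkC
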