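import Pool.Agent.StarkD.Stmts

/-!
# DSTEP: the step with the vanishing at the complex conjugations
-/

open NumberField IsDedekindDomain
open scoped TensorProduct Classical

namespace StarkC

namespace DSTEP

theorem exists_above_two (N : Type) [Field N] [NumberField N] :
    ∃ W : HeightOneSpectrum (𝓞 N), ((2 : ℕ) : 𝓞 N) ∈ W.asIdeal := by
  have h2 : (Ideal.span {(2 : ℤ)}).IsMaximal :=
    PrincipalIdealRing.isMaximal_of_irreducible Int.prime_two.irreducible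
  obtain ⟨P, hP, hlie⟩ := Ideal.exists_maximal_ideal_liesOver_of_isIntegral (S := 𝓞 N)
    (Ideal.span {(2 : ℤ)})
  have hmem : ((2 : ℕ) : 𝓞 N) ∈ P := by
    have h3 : (2 : ℤ) ∈ P.under ℤ := by
      rw [← hlie.over]
      exact Ideal.mem_span_singleton_self _
    have h4 : algebraMap ℤ (𝓞 N) 2 ∈ P := h3
    simpa using h4
  have hPb : P ≠ ⊥ := by
    rintro rfl
    rw [Ideal.mem_bot] at hmem
    have : (2 : 𝓞 N) = 0 := by exact_mod_cast hmem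
    exact two_ne_zero this
  exact ⟨⟨P, hP.isPrime, hPb⟩, hmem⟩

variable {K N : Type} [Field K] [NumberField K] [Field N] [NumberField N] [Algebra K N]
  [IsGalois K N]

theorem cc_conj {c : N ≃ₐ[K] N} (hc : IsCC c) (x : N ≃ₐ[K] N) : IsCC (x⁻¹ * c * x) := by
  obtain ⟨Φ, h⟩ := hc
  exact ⟨_, h.comp x⟩

/-- the parity argument -/
theorem parity {Ψ : (N ≃ₐ[K] N) → ℂ}
    (hΨ : Ψ ∈ CMB.GS (G := N ≃ₐ[K] N) fun H ψ => Ty3 H ψ) {c : N ≃ₐ[K] N} (hc : IsCC c) :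
    Ψ c = -Ψ 1 := by
  obtain ⟨m, H, ψ, n, hT, h⟩ := CMB.of_mem_GS hΨ
  rw [h c, h 1, ← Finset.sum_neg_distrib]
  refine Finset.sum_congr rfl fun i _ => ?_
  rw [← mul_neg]
  congr 1
  unfold indFun
  rw [← neg_div]
  congr 1
  rw [← Finset.sum_neg_distrib]
  refine Finset.sum_congr rfl fun x _ => ?_
  obtain ⟨hx, hψ⟩ := hT i _ (cc_conj hc x)
  have h1 : x⁻¹ * 1 * x = 1 := by group
  rw [if_pos hx, h1, if_pos (H i).one_mem, extZ, dif_pos hx, hψ, extZ, dif_pos (H i).one_mem]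
  have h2 : (⟨1, (H i).one_mem⟩ : H i) = 1 := rfl
  rw [h2, map_one, Units.val_one]

end DSTEP

theorem DSTEP_thm (h : Stmt_SSTEP) : Stmt_DSTEP := by
  intro p hp T L _ _ _ f hf hfp hfc
  obtain ⟨N₁, i1, i2, i3, i4, T₀, M, f₁, hT, hM, hcop, hi, hf₁, hV, hG⟩ :=
    h p hp (insert 2 T) L f hf hfp
  refine ⟨N₁, i1, i2, i3, i4, T₀, M, f₁, (Finset.subset_insert _ _).trans hT, hM, hcop, hi, hf₁,
    hV, ?_, hG⟩
  intro c hc
  have h1 := DSTEP.parity hG hc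
  beta_reduce at h1
  have hc' : IsCC (AlgEquiv.restrictNormalHom L c : L ≃ₐ[ℚ] L) := by
    obtain ⟨Φ, hΦ⟩ := hc
    exact ⟨_, CMB.isConj_restrict hΦ⟩
  have hf1 : f 1 = 0 := hfp 1 ⟨0, one_pow _⟩
  obtain ⟨W, hW⟩ := DSTEP.exists_above_two N₁
  have hf₁1 : f₁ 1 = 0 :=
    (hV W).1 ⟨2, hT (Finset.mem_insert_self _ _), Nat.prime_two, hW⟩ 1 (RB.dec_one W)
  rw [map_one, hfc _ hc', hf1, hf₁1] at h1
  simpa using h1

end StarkC
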