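import Pool.Agent.StarkD.Stmts
import Pool.Agent.StarkS.Basic
import Pool.Agent.StarkS.SU

/-!
# Stark's conjecture up to sign, sharper reduction: module DTG
-/

open NumberField IsDedekindDomain
open scoped TensorProduct Classical

namespace StarkC
namespace DTG

section

variable {A Q : Type} [Group A] [Fintype A] [Group Q] [Fintype Q]

/-- The inflation of a monomial function is monomial. -/
theorem infl (q : A →* Q) (hq : Function.Surjective q) (H : Subgroup Q) (ψ : H →* ℂˣ) (a : A) :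
    indFun H (extZ ψ) (q a) = indFun (H.comap q) (extZ (ψ.comp (q.subgroupComap H))) a := by
  rw [CMB.indFun_infl q hq]
  rfl

theorem index_ker (q : A →* Q) (hq : Function.Surjective q) (h2 : ∀ x : Q, PElt 2 x) :
    ∃ n : ℕ, q.ker.index = 2 ^ n := by
  haveI : Fact (Nat.Prime 2) := ⟨Nat.prime_two⟩
  have h3 : IsPGroup 2 Q := fun x => h2 x
  obtain ⟨n, hn⟩ := IsPGroup.iff_card.1 h3
  refine ⟨n, ?_⟩
  rw [Subgroup.index_ker, MonoidHom.range_eq_top.2 hq, Subgroup.card_top, hn]

theorem sum_mem {ι : Type} (s : Finset ι) (S : Submodule ℤ (A → ℂ)) (n : ι → ℤ)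
    (F : ι → A → ℂ) (h : ∀ i ∈ s, F i ∈ S) : (fun a => ∑ i ∈ s, (n i : ℂ) * F i a) ∈ S := by
  have e : (fun a => ∑ i ∈ s, (n i : ℂ) * F i a) = ∑ i ∈ s, n i • F i := by
    funext a
    rw [Finset.sum_apply]
    refine Finset.sum_congr rfl fun i _ => ?_
    rw [Pi.smul_apply, zsmul_eq_mul]
  rw [e]
  exact Submodule.sum_mem _ fun i hi => Submodule.smul_mem _ _ (h i hi)

end

end DTG

theorem DTG_thm (h1 : Stmt_SMNX) (h2 : Stmt_SSUM) (h3 : Stmt_SIDL) (h4 : Stmt_SREP) :
    Stmt_DTG := by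
  intro G _ E _ M hE hS A Q _ _ _ _ j q hj hM hq hqM hQ f hf hf0
  obtain ⟨m, H, ψ, c, hc⟩ := hf
  have hc' : ∀ a, f (q a) = ∑ i, (c i : ℂ) *
      indFun ((H i).comap q) (extZ ((ψ i).comp (q.subgroupComap (H i)))) a := by
    intro a
    rw [hc]
    refine Finset.sum_congr rfl fun i _ => ?_
    rw [DTG.infl q hq]
  refine h2 G A E j hE (fun a => f (q a)) ?_ ?_
  · intro g hg
    have e : (fun a => f (q a) * g a) = fun a => ∑ i, (c i : ℂ) *
        (fun a => indFun ((H i).comap q) (extZ ((ψ i).comp (q.subgroupComap (H i)))) a * g a)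
          a := by
      funext a
      rw [hc', Finset.sum_mul]
      refine Finset.sum_congr rfl fun i _ => ?_
      ring
    rw [e]
    refine DTG.sum_mem _ _ c (fun i a => indFun ((H i).comap q)
      (extZ ((ψ i).comp (q.subgroupComap (H i)))) a * g a) fun i _ => ?_
    obtain ⟨V, _, _, _, ρ, hρ⟩ := h4 A ((H i).comap q) ((ψ i).comp (q.subgroupComap (H i)))
    have h5 := (h3 G A E j g hg).2 V ρ
    have e2 : (fun a => ρ.character a * g a) = fun a => indFun ((H i).comap q)
        (extZ ((ψ i).comp (q.subgroupComap (H i)))) a * g a := by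
      funext a
      rw [hρ]
    rwa [e2] at h5
  · intro p hp
    obtain ⟨ε, hε⟩ := SU.exists_sign E M hS j hM p hp
    obtain ⟨a₀, ha₀⟩ := hp
    refine ⟨ε, hε, ?_⟩
    obtain ⟨n, hn⟩ := DTG.index_ker q hq hQ
    have h6 : f (q a₀) = 0 := hf0 a₀ ⟨p, ha₀⟩
    have e : (fun a => f (q a) * (1 + ((ε a : ℂˣ) : ℂ))) = fun a => ∑ i, (c i : ℂ) *
        ((indFun ((H i).comap q) (extZ ((ψ i).comp (q.subgroupComap (H i)))) a -
          indFun ((H i).comap q) (extZ ((ψ i).comp (q.subgroupComap (H i)))) a₀) *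
            (1 + ((ε a : ℂˣ) : ℂ))) := by
      funext a
      have h7 : f (q a) * (1 + ((ε a : ℂˣ) : ℂ)) =
          (f (q a) - f (q a₀)) * (1 + ((ε a : ℂˣ) : ℂ)) := by rw [h6, sub_zero]
      rw [h7, hc' a, hc' a₀, ← Finset.sum_sub_distrib, Finset.sum_mul]
      refine Finset.sum_congr rfl fun i _ => ?_
      ring
    rw [e]
    refine DTG.sum_mem _ _ c (fun i a =>
      (indFun ((H i).comap q) (extZ ((ψ i).comp (q.subgroupComap (H i)))) a -
          indFun ((H i).comap q) (extZ ((ψ i).comp (q.subgroupComap (H i)))) a₀) *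
            (1 + ((ε a : ℂˣ) : ℂ))) fun i _ => ?_
    refine h1 G E M hE hS n A j hj hM q.ker (fun a ha => (hqM a).2 ha) hn ((H i).comap q)
      ((ψ i).comp (q.subgroupComap (H i))) ?_ ?_ p a₀ ha₀ ε hε
    · intro a ha
      have h8 : q a = 1 := ha
      rw [Subgroup.mem_comap, h8]
      exact (H i).one_mem
    · intro h hh
      have h8 : q (h : A) = 1 := hh
      have h9 : (q.subgroupComap (H i)) h = 1 := Subtype.ext h8
      rw [MonoidHom.comp_apply, h9, map_one]

end StarkC
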