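import Pool.Agent.StarkD.Stmts
import Pool.Agent.Stark.GOOD

/-!
# Stark's conjecture up to sign, sharper reduction: the characters of the three types
-/

open NumberField IsDedekindDomain
open scoped TensorProduct Classical

namespace StarkC

namespace DTYP

variable {N : Type} [Field N] [NumberField N] [IsGalois ℚ N]

theorem coe_symm (H : Subgroup (N ≃ₐ[ℚ] N)) (τ : N ≃ₐ[IntermediateField.fixedField H] N) :
    ((((IntermediateField.subgroupEquivAlgEquiv H).symm τ : H) : N ≃ₐ[ℚ] N) : N → N) = τ := by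
  funext x
  exact GOOD.symm_apply H τ x

theorem coe_symm_pow (H : Subgroup (N ≃ₐ[ℚ] N)) (τ : N ≃ₐ[IntermediateField.fixedField H] N)
    (n : ℕ) (x : N) :
    ((((IntermediateField.subgroupEquivAlgEquiv H).symm τ : H) : N ≃ₐ[ℚ] N) ^ n) x =
      (τ ^ n) x := by
  have h := GOOD.symm_apply H (τ ^ n) x
  rw [map_pow, SubgroupClass.coe_pow] at h
  exact h

/-- Every embedding of a Galois number field has a complex conjugation. -/
theorem exists_conj (Φ : N →+* ℂ) : ∃ c : N ≃ₐ[ℚ] N, ComplexEmbedding.IsConj Φ c := by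
  have h1 : Φ.comp (algebraMap ℚ N) = (ComplexEmbedding.conjugate Φ).comp (algebraMap ℚ N) :=
    Subsingleton.elim _ _
  obtain ⟨τ, hτ⟩ := ComplexEmbedding.exists_comp_symm_eq_of_comp_eq Φ
    (ComplexEmbedding.conjugate Φ) h1
  refine ⟨τ.symm, ?_⟩
  unfold ComplexEmbedding.IsConj
  exact hτ.symm

theorem totallyReal (H : Subgroup (N ≃ₐ[ℚ] N)) (hH : ∀ c : N ≃ₐ[ℚ] N, IsCC c → c ∈ H) :
    IsTotallyReal (IntermediateField.fixedField H) := by
  constructor
  intro v
  obtain ⟨Φ, hΦ⟩ : ∃ Φ : N →+* ℂ,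
      Φ.comp (algebraMap (IntermediateField.fixedField H) N) = v.embedding :=
    ⟨ComplexEmbedding.lift N v.embedding, ComplexEmbedding.lift_comp_algebraMap N v.embedding⟩
  obtain ⟨c, hc⟩ := exists_conj Φ
  have hcH : c ∈ H := hH c ⟨Φ, hc⟩
  rw [InfinitePlace.isReal_iff, ComplexEmbedding.isReal_iff]
  ext x
  have h1 : (ComplexEmbedding.conjugate Φ) (x : N) = Φ (c (x : N)) := by
    unfold ComplexEmbedding.IsConj at hc
    rw [hc]
    rfl
  have h2 : c (x : N) = (x : N) := by
    have := x.2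
    rw [IntermediateField.mem_fixedField_iff] at this
    exact this c hcH
  rw [← hΦ]
  rw [h2] at h1
  exact h1

end DTYP

theorem DTYP_thm : Stmt_DTYP := by
  intro R σ P T E _ hR N _ _ _ _ H ψ hty
  obtain ⟨h2, h1, h3⟩ := hR
  rcases hty with hty | hty | hty
  · obtain ⟨hcc, q, hq, ⟨a, ha⟩, hE⟩ := hty
    refine h1 (IntermediateField.fixedField H) N (liftChar H ψ) (GOOD.totallyComplex H hcc)
      ⟨q, a, hq, ?_, ?_⟩
    · ext g
      have h4 := DFunLike.congr_fun ha ((IntermediateField.subgroupEquivAlgEquiv H).symm g)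
      have h5 : ((liftChar H ψ) ^ (q ^ a)) g = 1 := h4
      rw [h5]
      rfl
    · intro g
      obtain ⟨k, hk⟩ := hE _ (SetLike.coe_mem ((IntermediateField.subgroupEquivAlgEquiv H).symm g))
      refine ⟨k, fun x => ?_⟩
      rw [← DTYP.coe_symm_pow H g (q ^ k)]
      exact hk x
  · obtain ⟨hcc, hF, hD⟩ := hty
    refine h2 (IntermediateField.fixedField H) N (liftChar H ψ) (GOOD.totallyComplex H hcc)
      ?_ ?_
    · intro w g hg
      refine hF w ((IntermediateField.subgroupEquivAlgEquiv H).symm g) ?_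
      rw [DTYP.coe_symm H g]
      exact hg
    · intro w hw g hg
      refine hD w hw ((IntermediateField.subgroupEquivAlgEquiv H).symm g) ?_
      rw [DTYP.coe_symm H g]
      exact hg
  · refine h3 (IntermediateField.fixedField H) N (liftChar H ψ)
      (DTYP.totallyReal H fun c hc => (hty c hc).1) ?_
    intro Φ c hc
    obtain ⟨_, h5⟩ := hty _ ⟨Φ, GOOD.isConj_symm H c Φ hc⟩
    exact h5

end StarkC
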