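import Pool.Agent.StarkD.Stmts
import Pool.Agent.StarkI.LOC2

/-!
# D_VINF: the property (V) is inherited by inflation
-/

open NumberField IsDedekindDomain
open scoped TensorProduct Classical

namespace StarkC

namespace DVINF

/-- `T₀` and the primes below. -/
theorem above_under {L N : Type} [Field L] [NumberField L] [Field N] [NumberField N]
    [Algebra L N] (T : Finset ℕ) (w : HeightOneSpectrum (𝓞 N)) :
    Above T (w.under (𝓞 L)) ↔ Above T w := by
  unfold Above
  simp only [RB.natCast_mem_under]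

/-- Inertia groups are normal in decomposition groups. -/
theorem frob_conj {K N : Type} [Field K] [Field N] [NumberField N] [Algebra K N]
    {w : HeightOneSpectrum (𝓞 N)} {g x : N ≃ₐ[K] N} (hg : FrobPow N w 1 g) (hx : Dec w x) :
    FrobPow N w 1 (x⁻¹ * g * x : N ≃ₐ[K] N) := by
  intro a b hb
  have h1 : ((STB.oMap (x : N ≃+* N) b : 𝓞 N) : N) = g ((STB.oMap (x : N ≃+* N) a : 𝓞 N) : N) := by
    show x (b : N) = g (x (a : N))
    rw [hb]
    show x (x⁻¹ (g (x (a : N)))) = g (x (a : N))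
    exact AlgEquiv.apply_symm_apply x _
  have h2 := hg (STB.oMap (x : N ≃+* N) a) (STB.oMap (x : N ≃+* N) b) h1
  rw [pow_one, ← map_sub] at h2
  rw [pow_one]
  refine RB.dec_inv hx (STB.oMap (x : N ≃+* N) (b - a)) (b - a) ?_ h2
  show ((b - a : 𝓞 N) : N) = x⁻¹ (x ((b - a : 𝓞 N) : N))
  exact (AlgEquiv.symm_apply_apply x _).symm

/-- The restriction of decomposition groups. -/
noncomputable def rD (K N N' : Type) [Field K] [Field N] [NumberField N] [Field N']
    [NumberField N'] [Algebra K N] [Algebra K N'] [Algebra N N'] [IsScalarTower K N N']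
    [Normal K N] (W : HeightOneSpectrum (𝓞 N')) : decGrp K W →* decGrp K (W.under (𝓞 N)) :=
  ((AlgEquiv.restrictNormalHom N).comp (decGrp K W).subtype).codRestrict _
    fun g => RB.dec_restrict g.2

end DVINF

theorem DVINF_thm (h : Stmt_IPULL) : Stmt_DVINF := by
  intro K N N' _ _ _ _ _ _ _ _ _ _ _ _ T₀ f hf W
  obtain ⟨hf1, hf2⟩ := hf (W.under (𝓞 N))
  refine ⟨fun hW g hg => hf1 ((DVINF.above_under T₀ W).2 hW) _ (RB.dec_restrict hg), ?_⟩
  intro hW
  have h1 := hf2 fun h' => hW ((DVINF.above_under T₀ W).1 h')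
  refine LOC.pull_GS h (DVINF.rD K N N' W) ?_ h1
  intro B ν x hB b hb
  rw [MonoidHom.comp_apply]
  refine hB _ ?_
  have h2 : FrobPow N (W.under (𝓞 N)) 1
      (AlgEquiv.restrictNormalHom N ((b : decGrp K W) : N' ≃ₐ[K] N') : N ≃ₐ[K] N) :=
    RB.frob_restrict hb
  have h3 := DVINF.frob_conj h2 (x.2 : Dec (W.under (𝓞 N)) (x : N ≃ₐ[K] N))
  have h4 : ((((cj (DVINF.rD K N N' W) x).subgroupComap B b : B) :
      decGrp K (W.under (𝓞 N))) : N ≃ₐ[K] N) =
      (x : N ≃ₐ[K] N)⁻¹ * AlgEquiv.restrictNormalHom N ((b : decGrp K W) : N' ≃ₐ[K] N') *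
        (x : N ≃ₐ[K] N) := by
    show ((cj (DVINF.rD K N N' W) x (b : decGrp K W) : decGrp K (W.under (𝓞 N))) :
      N ≃ₐ[K] N) = _
    rw [LOC.cj_apply]
    rfl
  rw [h4]
  exact h3

end StarkC
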