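import Pool.Agent.StarkI.SStmts
import Pool.Agent.StarkS.Stmts
import Pool.Agent.StarkT.StmtsX
import Pool.Agent.StarkT.StmtsI

/-!
# Stark's conjecture up to sign, sharper reduction: statements of the modules

See `PAPER.md`.
-/

open NumberField IsDedekindDomain
open scoped TensorProduct Classical

namespace StarkC

/-! ### Types -/

/-- Type 1 without complex conjugations: `ψ` has `q`-power order for a prime number `q`, the
elements of `H` induce automorphisms of `q`-power order on `E`, and there is no complex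
conjugation in `H`. -/
def Ty1N (E : Type) [Field E] {K N : Type} [Field K] [Field N] [Algebra K N] [Algebra E N]
    (H : Subgroup (N ≃ₐ[K] N)) (ψ : H →* ℂˣ) : Prop :=
  (∀ c ∈ H, ¬ IsCC c) ∧ ∃ q : ℕ, q.Prime ∧ Ty1S q E H ψ

/-! ### Group theory -/

/-- D_TG: virtual characters of a quotient `Q` of 2-power order which vanish at the complex
conjugations. -/
def Stmt_DTG : Prop :=
  ∀ (G : Type) [Group G] (E : Emb G) [Finite E.P] (M : Subgroup G), HasMinus E → HasSigns E M →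
    ∀ (A Q : Type) [Group A] [Fintype A] [Group Q] [Fintype Q] (j : A →* G) (q : A →* Q),
      Function.Injective j → M ≤ j.range → Function.Surjective q →
      (∀ a, q a = 1 ↔ j a ∈ M) → (∀ x : Q, PElt 2 x) →
      ∀ f : Q → ℂ, IsMonComb f → (∀ a, CCj E j a → f (q a) = 0) →
        (fun a => 2 * f (q a)) ∈ JJ E j

/-! ### Arithmetic -/

/-- D_FD: the field `N'` (compare `Stmt_SFD`), an extension of `N` with Galois group of
exponent 2. -/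
def Stmt_DFD : Prop :=
  ∀ (K N : Type) [Field K] [NumberField K] [Field N] [NumberField N] [Algebra K N] [IsGalois K N],
    ∃ (N' : Type) (_ : Field N') (_ : NumberField N') (_ : Algebra K N') (_ : Algebra N N')
      (_ : IsScalarTower K N N') (_ : IsGalois K N'),
      (∀ g : N' ≃ₐ[K] N', AlgEquiv.restrictNormalHom N g = (1 : N ≃ₐ[K] N) → g * g = 1) ∧
      (∃ y : N', y ^ 2 = -1) ∧
      ∀ (H : Subgroup (N ≃ₐ[K] N)) (Φ₀ : N →+* ℂ), ∃ (α : N) (y : N'),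
        y ^ 2 = algebraMap N N' α ∧ (∀ h ∈ H, h α = α) ∧
        ∀ (Φ : N →+* ℂ) (c : N ≃ₐ[K] N), c ∈ H → ComplexEmbedding.IsConj Φ c →
          ((∃ h ∈ H, Φ = Φ₀.comp (h : N →+* N)) → 0 < (Φ α).re) ∧
          ((¬ ∃ h ∈ H, Φ = Φ₀.comp (h : N →+* N)) → (Φ α).re < 0)

/-- D_VINF: the property (V) is inherited by inflation. -/
def Stmt_DVINF : Prop :=
  ∀ (K N N' : Type) [Field K] [NumberField K] [Field N] [NumberField N] [Field N'] [NumberField N']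
    [Algebra K N] [Algebra K N'] [Algebra N N'] [IsScalarTower K N N'] [IsGalois K N]
    [IsGalois K N'] (T₀ : Finset ℕ) (f : (N ≃ₐ[K] N) → ℂ), (∀ W, VAt T₀ f W) →
    ∀ W, VAt T₀ (fun g : N' ≃ₐ[K] N' => f (AlgEquiv.restrictNormalHom N g)) W

/-- D_PST: the `p`-elements are removed, at the cost of the factor 2. -/
def Stmt_DPST : Prop :=
  ∀ (p : ℕ), p.Prime → ∀ (E L : Type) [Field E] [NumberField E] [Field L] [NumberField L]
    [IsGalois ℚ L] [Algebra E L] (f : (L ≃ₐ[ℚ] L) → ℂ), (∃ i : L, i ^ 2 = -1) → IsMonComb f →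
    (∀ c : L ≃ₐ[ℚ] L, IsCC c → f c = 0) →
    ∃ (N : Type) (_ : Field N) (_ : NumberField N) (_ : Algebra L N) (_ : Algebra E N)
      (_ : IsScalarTower E L N) (_ : IsGalois ℚ N) (M : ℕ) (f₂ : (N ≃ₐ[ℚ] N) → ℂ),
      0 < M ∧ Nat.Coprime p M ∧ IsMonComb f₂ ∧ (∀ g, PElt p g → f₂ g = 0) ∧
      (∀ c : N ≃ₐ[ℚ] N, IsCC c → f₂ c = 0) ∧
      (∀ T₀ : Finset ℕ, (∀ W, VAt T₀ f W) → ∀ W, VAt T₀ f₂ W) ∧
      (fun g : N ≃ₐ[ℚ] N => 2 * ((M : ℂ) * f (AlgEquiv.restrictNormalHom L g) - f₂ g)) ∈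
        CMB.GS (G := N ≃ₐ[ℚ] N) fun H ψ => Ty1N E H ψ

/-- D_LOC: `Stmt_SLOC` for functions which vanish at the complex conjugations. -/
def Stmt_DLOC : Prop :=
  ∀ (p : ℕ), p.Prime → ∀ (T T₀ : Finset ℕ), T ⊆ T₀ →
  ∀ (K N₁ : Type) [Field K] [NumberField K] [Field N₁] [NumberField N₁] [Algebra K N₁]
    [IsGalois K N₁] (f : (N₁ ≃ₐ[K] N₁) → ℂ), (∃ i : N₁, i ^ 2 = -1) → IsMonComb f →
    (∀ g, PElt p g → f g = 0) → (∀ c : N₁ ≃ₐ[K] N₁, IsCC c → f c = 0) → (∀ W, VAt T₀ f W) →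
    ∃ (N : Type) (_ : Field N) (_ : NumberField N) (_ : Algebra K N)
      (_ : Algebra N₁ N) (_ : IsScalarTower K N₁ N) (_ : IsGalois K N) (M : ℕ),
      0 < M ∧ Nat.Coprime p M ∧
      (fun g : N ≃ₐ[K] N => (M : ℂ) * f (AlgEquiv.restrictNormalHom N₁ g)) ∈
        CMB.GS (G := N ≃ₐ[K] N) fun H ψ => Ty2 T H ψ

/-- D_STEP: `Stmt_SSTEP` with the vanishing at the complex conjugations. -/
def Stmt_DSTEP : Prop :=
  ∀ (p : ℕ), p.Prime → ∀ (T : Finset ℕ) (L : Type) [Field L] [NumberField L]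
    [IsGalois ℚ L] (f : (L ≃ₐ[ℚ] L) → ℂ), IsMonComb f → (∀ g, PElt p g → f g = 0) →
    (∀ c : L ≃ₐ[ℚ] L, IsCC c → f c = 0) →
    ∃ (N₁ : Type) (_ : Field N₁) (_ : NumberField N₁) (_ : Algebra L N₁) (_ : IsGalois ℚ N₁)
      (T₀ : Finset ℕ) (M : ℕ) (f₁ : (N₁ ≃ₐ[ℚ] N₁) → ℂ),
      T ⊆ T₀ ∧ 0 < M ∧ Nat.Coprime p M ∧ (∃ i : N₁, i ^ 2 = -1) ∧ IsMonComb f₁ ∧
      (∀ W, VAt T₀ f₁ W) ∧ (∀ c : N₁ ≃ₐ[ℚ] N₁, IsCC c → f₁ c = 0) ∧
      (fun g : N₁ ≃ₐ[ℚ] N₁ => (M : ℂ) * f (AlgEquiv.restrictNormalHom L g) - f₁ g) ∈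
        CMB.GS (G := N₁ ≃ₐ[ℚ] N₁) fun H ψ => Ty3 H ψ

/-- D_SPAN: `2 M f` is in the span, `M` prime to `p`. -/
def Stmt_DSPAN : Prop :=
  ∀ (p : ℕ), p.Prime → ∀ (T : Finset ℕ) (E : Type) [Field E] [NumberField E] [IsGalois ℚ E]
    (L : Type) [Field L] [NumberField L] [IsGalois ℚ L] (f : (L ≃ₐ[ℚ] L) → ℂ), IsMonComb f →
    (∀ c : L ≃ₐ[ℚ] L, IsCC c → f c = 0) →
    ∃ (N : Type) (_ : Field N) (_ : NumberField N) (_ : Algebra L N) (_ : Algebra E N)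
      (_ : IsGalois ℚ N) (M : ℕ), 0 < M ∧ Nat.Coprime p M ∧
      (fun g : N ≃ₐ[ℚ] N => 2 * ((M : ℂ) * f (AlgEquiv.restrictNormalHom L g))) ∈
        CMB.GS (G := N ≃ₐ[ℚ] N) fun H ψ => Ty1N E H ψ ∨ Ty2 T H ψ ∨ Ty3 H ψ

/-- D_SPANZ: the integral form. -/
def Stmt_DSPANZ : Prop :=
  ∀ (T : Finset ℕ) (E : Type) [Field E] [NumberField E] [IsGalois ℚ E]
    (L : Type) [Field L] [NumberField L] [IsGalois ℚ L] (f : (L ≃ₐ[ℚ] L) → ℂ), IsMonComb f →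
    (∀ c : L ≃ₐ[ℚ] L, IsCC c → f c = 0) →
    ∃ (N : Type) (_ : Field N) (_ : NumberField N) (_ : Algebra L N) (_ : Algebra E N)
      (_ : IsGalois ℚ N),
      (fun g : N ≃ₐ[ℚ] N => 2 * f (AlgEquiv.restrictNormalHom L g)) ∈
        CMB.GS (G := N ≃ₐ[ℚ] N) fun H ψ => Ty1N E H ψ ∨ Ty2 T H ψ ∨ Ty3 H ψ

/-! ### The relation -/

/-- The relation, with multipliers in `P`, for the linear characters of the three classes:
unramified characters of totally complex fields which are trivial on the decomposition groups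
above `T`; characters of prime power order `p ^ n` over totally complex fields such that the
elements of the Galois group induce automorphisms of `p`-power order on `E`; totally odd
characters of totally real fields. -/
def RelD (R : Set (ℂ × ℂ)) (P : ℕ → Prop) (σ : ℂ ≃+* ℂ) (T : Finset ℕ) (E : Type) [Field E] :
    Prop :=
  (∀ (K L : Type) [Field K] [NumberField K] [Field L] [NumberField L] [Algebra K L] [IsGalois K L]
    (ψ : (L ≃ₐ[K] L) →* ℂˣ), IsTotallyComplex K →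
    (∀ (w : HeightOneSpectrum (𝓞 L)) (g : L ≃ₐ[K] L), FrobPow L w 1 g → ψ g = 1) →
    (∀ w : HeightOneSpectrum (𝓞 L), (∃ p ∈ T, p.Prime ∧ (p : 𝓞 L) ∈ w.asIdeal) →
      ∀ g : L ≃ₐ[K] L, Dec w g → ψ g = 1) →
    RelLinP R P 1 σ K L ψ) ∧
  (∀ (K L : Type) [Field K] [NumberField K] [Field L] [NumberField L] [Algebra K L] [IsGalois K L]
    [Algebra E L] (ψ : (L ≃ₐ[K] L) →* ℂˣ), IsTotallyComplex K →
    (∃ p n : ℕ, p.Prime ∧ ψ ^ (p ^ n) = 1 ∧ ∀ g : L ≃ₐ[K] L, ∃ k : ℕ, ∀ x : E,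
      (g ^ (p ^ k)) (algebraMap E L x) = algebraMap E L x) →
    RelLinP R P 1 σ K L ψ) ∧
  (∀ (K L : Type) [Field K] [NumberField K] [Field L] [NumberField L] [Algebra K L] [IsGalois K L]
    (ψ : (L ≃ₐ[K] L) →* ℂˣ), IsTotallyReal K →
    (∀ (Φ : L →+* ℂ) (c : L ≃ₐ[K] L), ComplexEmbedding.IsConj Φ c → (ψ c : ℂ) = -1) →
    RelLinP R P 1 σ K L ψ)

/-- D_TYP: the characters of the three types satisfy the relation. -/
def Stmt_DTYP : Prop :=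
  ∀ (R : Set (ℂ × ℂ)) (σ : ℂ ≃+* ℂ) (P : ℕ → Prop) (T : Finset ℕ) (E : Type) [Field E],
    RelD R P σ T E →
    ∀ (N : Type) [Field N] [NumberField N] [IsGalois ℚ N] [Algebra E N]
      (H : Subgroup (N ≃ₐ[ℚ] N)) (ψ : H →* ℂˣ), (Ty1N E H ψ ∨ Ty2 T H ψ ∨ Ty3 H ψ) →
      RelLinP R P 1 σ (IntermediateField.fixedField H) N (liftChar H ψ)

/-- D_QQ: the characters of `Gal(L/ℚ)`. -/
def Stmt_DQQ : Prop :=
  ∀ (R : Set (ℂ × ℂ)), IsRel R → ∀ (σ : ℂ ≃+* ℂ) (P : ℕ → Prop), P 1 →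
    (∀ a b, P a → P b → P (a * b)) → ∀ (T : Finset ℕ) (E : Type) [Field E] [NumberField E]
    [IsGalois ℚ E], RelD R P σ T E →
  ∀ (L : Type) [Field L] [NumberField L] [IsGalois ℚ L]
    (S : Finset (HeightOneSpectrum (𝓞 ℚ)))
    (φ : XQ L (aboveSet ℚ L S) ≃ₗ[ℚ] QU L (aboveSet ℚ L S))
    (Θ : XC L (aboveSet ℚ L S) →ₗ[ℂ] XC L (aboveSet ℚ L S))
    (V V' : Type) [AddCommGroup V] [Module ℂ V] [Module.Finite ℂ V]
    [AddCommGroup V'] [Module ℂ V'] [Module.Finite ℂ V']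
    (ρ : Representation ℂ (L ≃ₐ[ℚ] L) V) (ρ' : Representation ℂ (L ≃ₐ[ℚ] L) V'),
    IsPhiTheta ℚ (aboveSet ℚ L S) φ Θ → (∀ g, ρ'.character g = σ (ρ.character g)) →
    ∃ M : ℕ, P M ∧ RelAt R (2 * M) (S : Set (HeightOneSpectrum (𝓞 ℚ))) (aboveSet ℚ L S) Θ ρ ρ'

/-- D_ALL: from `ℚ` to all number fields, multipliers `2 M`, `M` in `P`. -/
def Stmt_DALL : Prop :=
  ∀ (P : ℕ → Prop), P 1 → (∀ a b, P a → P b → P (a * b)) →
    StarkPQ (fun M' => ∃ M : ℕ, P M ∧ M' = 2 * M) → StarkP (fun M' => ∃ M : ℕ, P M ∧ M' = 2 * M)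

end StarkC
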