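import Pool.Agent.StarkD.PDefsD
import Pool.Agent.StarkD.Stmts
import Pool.Agent.StarkT.PBridgeX

/-!
# Bridge between the two forms of the definitions: the basic linear characters
-/

open NumberField IsDedekindDomain
open scoped TensorProduct Classical

namespace StarkB

theorem relD_of (P : Submonoid ℕ) (T : Finset ℕ) (E : Type) [Field E]
    (h : StarkP.StarkBasicMul P T E) (σ : ℂ ≃+* ℂ) :
    StarkC.RelD (StarkC.TMAIN.relS σ) (fun M => M ∈ P) σ T E := by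
  refine ⟨?_, ?_, ?_⟩
  · intro K L _ _ _ _ _ _ ψ hK h1 h2 S φ Θ hφ
    exact (starkRepMul_iff P 1 (StarkP.linRep ψ) (StarkP.linRep (StarkP.twist σ ψ)) σ).1
      (h K L ψ σ (Or.inl ⟨hK, Or.inl ⟨h1, h2⟩⟩)) S φ Θ hφ
  · intro K L _ _ _ _ _ _ _ ψ hK hp S φ Θ hφ
    obtain ⟨p, n, hp, hψ, hE⟩ := hp
    exact (starkRepMul_iff P 1 (StarkP.linRep ψ) (StarkP.linRep (StarkP.twist σ ψ)) σ).1
      (h K L ψ σ (Or.inl ⟨hK, Or.inr ⟨algebraMap E L, p, n, hp, hψ, hE⟩⟩)) S φ Θ hφ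
  · intro K L _ _ _ _ _ _ ψ hK hodd S φ Θ hφ
    exact (starkRepMul_iff P 1 (StarkP.linRep ψ) (StarkP.linRep (StarkP.twist σ ψ)) σ).1
      (h K L ψ σ (Or.inr ⟨hK, hodd⟩)) S φ Θ hφ

/-- The reduction, printable form. -/
theorem starkBasic_main (hQ : StarkC.Stmt_DQQ) (hA : StarkC.Stmt_DALL) (P : Submonoid ℕ)
    (T : Finset ℕ) (E : Type) [Field E] [NumberField E] [IsGalois ℚ E]
    (h : StarkP.StarkBasicMul P T E) : StarkP.StarkConjectureMul P 2 := by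
  have hPQ : StarkC.StarkPQ (fun M' => ∃ M : ℕ, M ∈ P ∧ M' = 2 * M) := by
    intro L _ _ _ S φ Θ V V' _ _ _ _ _ _ ρ ρ' σ hφ hσ
    obtain ⟨M, hM, hR⟩ := hQ (StarkC.TMAIN.relS σ) (StarkC.TMAIN.isRel_relS σ) σ (fun M => M ∈ P)
      P.one_mem (fun a b ha hb => P.mul_mem ha hb) T E (relD_of P T E h σ) L S φ Θ V V' ρ ρ' hφ hσ
    exact ⟨2 * M, ⟨M, hM, rfl⟩, hR⟩
  have hP := hA (fun M => M ∈ P) P.one_mem (fun a b ha hb => P.mul_mem ha hb) hPQ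
  intro K L V V' _ _ _ _ _ _ _ _ _ _ _ _ ρ ρ' σ hχ
  refine (starkRepMul_iff P 2 ρ ρ' σ).2 fun S φ Θ hφ => ?_
  obtain ⟨M', ⟨M, hM, rfl⟩, hR⟩ := hP K L S φ Θ V V' ρ ρ' σ hφ hχ
  exact ⟨M, hM, hR⟩

end StarkB
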