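import Pool.Agent.StarkT.ALLI
import Pool.Agent.StarkT.ALLX
import Pool.Agent.StarkI.SLOC
import Pool.Agent.StarkI.SLAM
import Pool.Agent.StarkI.KEY
import Pool.Agent.StarkI.SOL
import Pool.Agent.StarkI.PULL
import Pool.Agent.StarkI.GRP
import Pool.Agent.StarkI.INV
import Pool.Agent.StarkI.TOR
import Pool.Agent.StarkI.SP
import Pool.Agent.StarkI.SPROD
import Pool.Agent.StarkI.SCOMP
import Pool.Agent.Stark.RPOLY
import Pool.Agent.Stark.RFKS
import Pool.Agent.Stark.RSSQ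
import Pool.Agent.Stark.RAS
import Pool.Agent.Stark.RTOR
import Pool.Agent.Stark.RFIN
import Pool.Agent.StarkU.ALLS
import Pool.Agent.StarkD.DALL
import Pool.Agent.StarkD.DFD
import Pool.Agent.StarkD.DPST
import Pool.Agent.StarkD.DQQ
import Pool.Agent.StarkD.DSPAN
import Pool.Agent.StarkD.DSPANZ
import Pool.Agent.StarkD.DSTEP
import Pool.Agent.StarkD.DTG
import Pool.Agent.StarkD.DTYP
import Pool.Agent.StarkD.DVINF
import Pool.Agent.StarkD.PBridgeD

/-!
# Theorem D': assembly of all modules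
-/

open NumberField IsDedekindDomain
open scoped TensorProduct Classical

namespace StarkC

namespace ALLD

theorem rfks : Stmt_RFKS := RFKS_thm RPOLY_thm

theorem itor : Stmt_ITOR := ITOR_thm (RTOR_thm (RAS_thm RSSQ_thm)) IINV_thm

theorem ikey : Stmt_IKEY := IKEY_thm rfks itor IINV_thm ART_thm IGRP_thm

theorem dloc : Stmt_DLOC := SLOC0_thm ISOL_thm IPULL_thm ikey SLAM_thm RFIN_thm

theorem dtg : Stmt_DTG := DTG_thm ALLX.smnx ALLX.ssum ALLX.sidl SREP_thm

theorem dfd : Stmt_DFD := DFD_thm SAP_thm AR3_thm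

theorem sprod : Stmt_SPROD := SPROD_thm IPULL_thm

theorem dpst : Stmt_DPST :=
  DPST_thm dtg dfd (DVINF_thm IPULL_thm) SHS_thm SP_thm sprod IPULL_thm

theorem dspanz : Stmt_DSPANZ :=
  DSPANZ_thm (DSPAN_thm SCOMP_thm dpst (DSTEP_thm StarkC.ALLS.sstep) dloc)

theorem dqq : Stmt_DQQ :=
  DQQ_thm dspanz DTYP_thm ALLT.bra ALLT.infl LINF_thm ALLX.indx ALLX.qcs

theorem dall : Stmt_DALL :=
  DALL_thm ALLT.bra ALLX.indx GALQ_thm ALLT.infl ALLT.exph INDREP_thm ALLT.downl_all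
    ALLT.sindp_all LINF_thm

end ALLD

end StarkC
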