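import Pool.Agent.StarkT.PDefsX
import Pool.Agent.Stark.PDefsR

/-!
# Stark's conjecture: the basic linear characters
-/

open NumberField IsDedekindDomain
open scoped Classical

namespace StarkP

section

variable {K L : Type} [Field K] [Field L] [NumberField L] [Algebra K L]

/-- The linear character `ψ` of `Gal(L/K)` is trivial on all inertia groups, and on the
decomposition groups of all primes of `L` above the prime numbers in `T`. -/
def UnramifiedSplit (T : Finset ℕ) (ψ : (L ≃ₐ[K] L) →* ℂˣ) : Prop :=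
  (∀ (w : HeightOneSpectrum (𝓞 L)) (g : L ≃ₐ[K] L), FrobPow L w 1 g → ψ g = 1) ∧
  ∀ w : HeightOneSpectrum (𝓞 L), (∃ p ∈ T, p.Prime ∧ (p : 𝓞 L) ∈ w.asIdeal) →
    ∀ g : L ≃ₐ[K] L, Dec w g → ψ g = 1

/-- `L` contains `E` and, for some prime number `p`, the linear character `ψ` of `Gal(L/K)` has
`p`-power order and every element of `Gal(L/K)` induces on `E` an automorphism of `p`-power order
(for `E` Galois over `ℚ` this means that `EK/K` is a `p`-extension). -/
def PrimePowerOver (E : Type) [Field E] (ψ : (L ≃ₐ[K] L) →* ℂˣ) : Prop :=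
  ∃ (i : E →+* L) (p n : ℕ), p.Prime ∧ ψ ^ (p ^ n) = 1 ∧
    ∀ g : L ≃ₐ[K] L, ∃ k : ℕ, ∀ x : E, (g ^ (p ^ k)) (i x) = i x

/-- `ψ(c) = -1` for all complex conjugations `c` in `Gal(L/K)`. -/
def TotallyOdd (ψ : (L ≃ₐ[K] L) →* ℂˣ) : Prop :=
  ∀ (Φ : L →+* ℂ) (c : L ≃ₐ[K] L), ComplexEmbedding.IsConj Φ c → (ψ c : ℂ) = -1

end

/-- For all `S`, `φ`, `σ` there is an `M` in `P` such that Stark's assertion holds for `M ψ`, for
the following linear characters `ψ` of `Gal(L/K)`: `K` is totally complex and `ψ` is unramified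
and trivial on the decomposition groups above `T`, or `K` is totally complex, `ψ` has prime power
order `p^n` and `EK/K` is a `p`-extension, or `K` is totally real and `ψ` is totally odd. -/
def StarkLinearBasicMul (P : Submonoid ℕ) (T : Finset ℕ) (E K L : Type) [Field E] [Field K]
    [NumberField K] [Field L] [NumberField L] [Algebra K L] : Prop :=
  ∀ (ψ : (L ≃ₐ[K] L) →* ℂˣ) (σ : ℂ ≃+* ℂ),
    (IsTotallyComplex K ∧ (UnramifiedSplit T ψ ∨ PrimePowerOver E ψ)) ∨
      (IsTotallyReal K ∧ TotallyOdd ψ) →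
    StarkRepMul P 1 (linRep ψ) (linRep (twist σ ψ)) σ

/-- The assertion `StarkLinearBasicMul` for all finite Galois extensions of number fields. -/
def StarkBasicMul (P : Submonoid ℕ) (T : Finset ℕ) (E : Type) [Field E] : Prop :=
  ∀ (K L : Type) [Field K] [NumberField K] [Field L] [NumberField L] [Algebra K L] [IsGalois K L],
    StarkLinearBasicMul P T E K L

end StarkP
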